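import Pool.Agent.Lib.MP_a7239a_co.X1.Defs

/-!
# Arithmetic of the case that both end rows are fat (module AFAT)
-/

set_option autoImplicit false

open Finset

namespace Pool.Agent.Lib.MPa7239a.X1

/-- the numbers -/
theorem Num.nats {m t n s o b ρ k p : ℕ} (N : Num m t n s o b ρ k p) :
    (b + 1) * (m * s) = n + m * k ∧ b * n = s * b * o ∧ m * s = m * k + m * ρ ∧
      ∃ r : ℕ, o = b * m + r ∧ r * s = m * ρ ∧ 1 ≤ r ∧ r + 1 ≤ m := by
  have h1 : m * s = m * k + m * ρ := by rw [← N.ks]; ring
  have h2 : n = b * (m * s) + m * ρ := by rw [N.nt, N.tb]; ring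
  have h3 : (b + 1) * (m * s) = n + m * k := by
    rw [add_mul, one_mul]
    omega
  have h4 : b * n = s * b * o := by rw [← N.os]; ring
  refine ⟨h3, h4, h1, ?_⟩
  have hs := N.s3
  have hm := N.m0
  have h5 : b * m * s ≤ o * s := by
    rw [N.os, h2]
    have : b * (m * s) = b * m * s := by ring
    omega
  obtain ⟨r, hr⟩ := Nat.exists_eq_add_of_le (Nat.le_of_mul_le_mul_right h5 (by omega))
  have h6 : r * s = m * ρ := by
    have h7 := N.os
    rw [hr, h2] at h7
    have : (b * m + r) * s = b * (m * s) + r * s := by ring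
    omega
  refine ⟨r, hr, h6, ?_, ?_⟩
  · rcases Nat.eq_zero_or_pos r with h7 | h7
    · rw [h7, zero_mul] at h6
      have := Nat.mul_pos hm N.ρ1
      omega
    · exact h7
  · have h8 := Nat.mul_pos hm N.k1
    by_contra hcon
    have h9 : m * s ≤ r * s := Nat.mul_le_mul_right _ (by omega)
    omega

/-- a multiple of `o` in every interval of length `o - 1` -/
theorem exists_mul {o : ℕ} (ho : 0 < o) {x y : ℤ} (h : x + o ≤ y + 1) :
    ∃ q : ℤ, x ≤ q * o ∧ q * o ≤ y := by
  have ho' : (0 : ℤ) < o := by exact_mod_cast ho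
  have h1 := Int.emod_add_mul_ediv y o
  have h2 := Int.emod_nonneg y ho'.ne'
  have h3 := Int.emod_lt_of_pos y ho'
  refine ⟨y / o, ?_, ?_⟩
  · rw [mul_comm]
    linarith
  · rw [mul_comm]
    linarith

/-- Case I -/
theorem afat {m t n s o b ρ k p c a a' dl : ℕ} {s₀ s₁ s₂ : ℤ} (N : Num m t n s o b ρ k p)
    (hmc : m ≤ c) (P : Part m n b k c a a' dl s₀ s₁ s₂)
    (hno : ∀ q : ℤ, s₀ + s₁ - b * (c - a') ≤ q * o → ¬ q * o ≤ s₁ + s₂) : CA m s o b k c := by
  obtain ⟨e1, e2, e3, r, hr, hrs, hr1, hrm⟩ := N.nats
  have hb := N.b1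
  have hm := N.m0
  have ho : 0 < o := by omega
  have hd0 := P.d0
  have hb' : (1 : ℤ) ≤ b := by exact_mod_cast hb
  -- the length
  have hlen : b * c + a + a' + 2 ≤ o := by
    by_contra hcon
    have h1 : (o : ℤ) ≤ b * c + a + a' + 1 := by
      have : o ≤ b * c + a + a' + 1 := by omega
      exact_mod_cast this
    obtain ⟨q, h2, h3⟩ := exists_mul ho (x := s₀ + s₁ - b * (c - a')) (y := s₁ + s₂) (by
      have h4 := P.le₀
      have h5 := P.ge₂
      nlinarith)
    exact hno q h2 h3
  have hup := P.up
  have hlo := P.lo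
  have h₀ := P.le₀
  have h₂ := P.ge₂
  have hlen' : (b : ℤ) * c + a + a' + 2 ≤ o := by exact_mod_cast hlen
  have hd0' : (c : ℤ) + dl ≤ m * k + a + a' := by exact_mod_cast hd0
  have hdl0 : (0 : ℤ) ≤ dl := Int.natCast_nonneg _
  have ha0 : (0 : ℤ) ≤ a := Int.natCast_nonneg _
  have ha'0 : (0 : ℤ) ≤ a' := Int.natCast_nonneg _
  refine ⟨by omega, ?_, ?_⟩
  · rintro ⟨K, hK⟩
    -- `b n = 2 K o`
    have hKo : (b : ℤ) * n = 2 * (K * o) := by
      have : b * n = 2 * (K * o) := by rw [e2, hK]; ring
      exact_mod_cast this
    by_cases h1 : s₀ + s₁ - b * (c - a') ≤ (K : ℤ) * o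
    · have h2 := hno K h1
      push Not at h2
      -- above
      have h3 : (b : ℤ) * (2 * c - 2 * a - m * k) + 2 * a' + 2 ≤ 0 := by nlinarith
      have h4 : 2 * (c : ℤ) - 2 * a - m * k < 0 := by
        by_contra h5
        push Not at h5
        have h6 := mul_nonneg (show (0 : ℤ) ≤ b by linarith) h5
        linarith
      have h5 : 2 * ((b : ℤ) + 1) * c + 5 ≤ 2 * o + m * k := by linarith
      have h6 : 2 * (b + 1) * c + 5 ≤ 2 * o + m * k := by exact_mod_cast h5
      rw [mul_assoc] at h6
      exact h6
    · push Not at h1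
      have h3 : 2 * (a : ℤ) + 2 ≤ b * (m * k + 2 * a' - 2 * c) := by nlinarith
      have h4 : 0 < (m : ℤ) * k + 2 * a' - 2 * c := by
        by_contra h5
        push Not at h5
        have h6 := mul_nonneg (show (0 : ℤ) ≤ b by linarith) (neg_nonneg.2 h5)
        linarith
      have h5 : 2 * ((b : ℤ) + 1) * c + 5 ≤ 2 * o + m * k := by linarith
      have h6 : 2 * (b + 1) * c + 5 ≤ 2 * o + m * k := by exact_mod_cast h5
      rw [mul_assoc] at h6
      exact h6
  · intro hodd
    have hb2 : (b + 1) * c = b * c + c := by ring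
    have h1 : (b + 1) * c + 2 ≤ o + m * k := by omega
    have hso : Odd (s * b) := Nat.not_even_iff_odd.1 hodd
    have hsO : Odd s := (Nat.odd_mul.1 hso).1
    have hbO : Odd b := (Nat.odd_mul.1 hso).2
    -- parities
    have p1 : Even ((b + 1) * c) := (hbO.add_one).mul_right c
    have p2 : Even (o + m * k) := by
      have h2 : Even (n + m * k) := by
        rw [← e1]
        exact (hbO.add_one).mul_right _
      rw [← N.os] at h2
      have h3 : Even (o * s + m * k + (o * s + o)) := by
        refine h2.add ?_
        have h4 : o * s + o = o * (s + 1) := by ring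
        rw [h4]
        exact (hsO.add_one).mul_left o
      obtain ⟨x, hx⟩ := h3
      exact ⟨x - o * s, by omega⟩
    rcases Nat.mod_two_eq_zero_or_one (o + c) with h2 | h2
    · rw [h2]
      omega
    · rw [h2]
      by_cases h3 : (b + 1) * c + 2 = o + m * k
      · exfalso
        -- equality
        have h4 : c = m * k + a + a' := by omega
        have h5 : b * c + a + a' + 2 = o := by omega
        have h5' : (b : ℤ) * c + a + a' + 2 = o := by exact_mod_cast h5
        have h4' : (c : ℤ) = m * k + a + a' := by exact_mod_cast h4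
        have hdl : (dl : ℤ) = 0 := by linarith
        have x1 : (b : ℤ) * (c - a') = b * c - b * a' := by ring
        have x2 : ((b : ℤ) + 1) * a' = b * a' + a' := by ring
        rw [x2] at h₂
        rw [x1] at hno
        -- the multiples next to the interval
        obtain ⟨q, h6, h7⟩ := exists_mul ho (x := s₀ + s₁ - (b * c - b * a') - 1)
          (y := s₀ + s₁ - (b * c - b * a') - 1 + o - 1) (by linarith)
        have h8 : q * o = s₀ + s₁ - (b * c - b * a') - 1 := by
          by_contra h9
          have h10 : s₀ + s₁ - (b * c - b * a') ≤ q * o := by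
            have h12 := lt_of_le_of_ne h6 (Ne.symm h9)
            linarith
          have h11 := hno q h10
          push Not at h11
          linarith
        -- the interval ends before the next multiple
        have h9 := hno (q + 1) (by rw [add_mul, one_mul, h8]; linarith)
        push Not at h9
        rw [add_mul, one_mul, h8] at h9
        have h10 : s₂ = b * a' + a' := by linarith
        have h11 : s₀ = -a := by linarith
        have h12 : 2 * s₁ = b * n + b * (m * k) := by
          rw [hdl, h4'] at hlo
          have x3 : 2 * ((b : ℤ) * (m * k + a + a' - (m * k + a + a') - 0)) = 0 := by ring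
          rw [x3] at hlo
          linarith
        have h13 : (b : ℤ) * n = s * b * o := by exact_mod_cast e2
        -- `(b + 1) (a' - a) = (2 q + 1 - s b) o`
        have h14 : ((b : ℤ) + 1) * (a' - a) = (2 * q + 1 - s * b) * o := by
          have h15 : (b : ℤ) * (m * k) = b * c - b * a - b * a' := by
            rw [h4']; ring
          have h16 : ((b : ℤ) + 1) * (a' - a) = b * a' - b * a + a' - a := by ring
          have h17 : (2 * q + 1 - s * b) * (o : ℤ) = 2 * (q * o) + o - s * b * o := by ring
          rw [h16, h17, h8, ← h13]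
          linarith
        obtain ⟨v, hv⟩ : ∃ v : ℤ, 2 * q + 1 - s * b = 2 * v := by
          obtain ⟨w, hw⟩ := hso
          have hw' : (s : ℤ) * b = 2 * w + 1 := by exact_mod_cast hw
          exact ⟨q - w, by rw [hw']; ring⟩
        rw [hv] at h14
        have hbm : (b : ℤ) * m ≤ b * c := by
          exact_mod_cast Nat.mul_le_mul_left b hmc
        have hrz : (o : ℤ) = b * m + r := by exact_mod_cast hr
        have har : (a : ℤ) + a' + 2 ≤ r := by linarith
        have hrm' : (r : ℤ) + 1 ≤ m := by exact_mod_cast hrm
        have hbr : ((b : ℤ) + 1) * r < 2 * o := by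
          have x4 : (b : ℤ) * r ≤ b * m := mul_le_mul_of_nonneg_left (by linarith) (by linarith)
          have x5 : ((b : ℤ) + 1) * r = b * r + r := by ring
          rw [hrz, x5]
          linarith
        have hv0 : v = 0 := by
          by_contra hv1
          rcases lt_or_gt_of_ne hv1 with h16 | h16
          · have h17 : (b + 1 : ℤ) * (a - a') ≤ (b + 1) * r :=
              mul_le_mul_of_nonneg_left (by linarith) (by linarith)
            have h18 : 2 * (o : ℤ) ≤ -(2 * v) * o :=
              mul_le_mul_of_nonneg_right (by omega) (by omega)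
            linarith
          · have h17 : (b + 1 : ℤ) * (a' - a) ≤ (b + 1) * r :=
              mul_le_mul_of_nonneg_left (by linarith) (by linarith)
            have h18 : 2 * (o : ℤ) ≤ (2 * v) * o :=
              mul_le_mul_of_nonneg_right (by omega) (by omega)
            linarith
        rw [hv0, mul_zero, zero_mul] at h14
        have h15 : (a' : ℤ) - a = 0 := by
          rcases mul_eq_zero.1 h14 with h16 | h16
          · omega
          · exact h16
        have h16 : a' = a := by omega
        rw [h16] at h5
        obtain ⟨x, hx⟩ := p1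
        omega
      · obtain ⟨x, hx⟩ := p1
        obtain ⟨y, hy⟩ := p2
        omega

end Pool.Agent.Lib.MPa7239a.X1
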