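import Pool.Agent.Lib.MP_a7239a_co.X1.AFAT

/-!
# Arithmetic of the case that row `0` is not fat (module ALOW)
-/

set_option autoImplicit false

open Finset

namespace Pool.Agent.Lib.MPa7239a.X1

/-- Case II -/
theorem alow {m t n s o b ρ k p c a a' dl θ : ℕ} {s₀ s₁ s₂ : ℤ} (N : Num m t n s o b ρ k p)
    (hmc : m ≤ c) (P : Part m n b k c a a' dl s₀ s₁ s₂) (hdl : m * s < 2 * dl + θ)
    (hθ : θ + 10 ≤ m)
    (hno : ∀ q : ℤ, s₀ + s₁ - b * (c - a') ≤ q * o → ¬ q * o + 1 ≤ s₁ + s₂) :
    CA m s o b k c ∨ (a = 0 ∧ a' = 0 ∧ b * c + 1 = o ∧ s₀ = 0 ∧ s₂ = 0 ∧ ∃ q : ℤ, s₁ = q * o) := by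
  obtain ⟨e1, e2, e3, r, hr, hrs, hr1, hrm⟩ := N.nats
  have hb := N.b1
  have hm := N.m0
  have ho : 0 < o := by omega
  have hd0 := P.d0
  have hb' : (1 : ℤ) ≤ b := by exact_mod_cast hb
  have hup := P.up
  have hlo := P.lo
  have h₀ := P.le₀
  have h₂ := P.ge₂
  have x1 : (b : ℤ) * (c - a') = b * c - b * a' := by ring
  have x2 : ((b : ℤ) + 1) * a' = b * a' + a' := by ring
  rw [x2] at h₂
  rw [x1] at hno
  have ha0 : (0 : ℤ) ≤ a := Int.natCast_nonneg _
  have ha'0 : (0 : ℤ) ≤ a' := Int.natCast_nonneg _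
  -- the length
  have hlen : b * c + a + a' + 1 ≤ o := by
    by_contra hcon
    have h1 : (o : ℤ) ≤ b * c + a + a' := by
      have : o ≤ b * c + a + a' := by omega
      exact_mod_cast this
    obtain ⟨q, h2, h3⟩ := exists_mul ho (x := s₀ + s₁ - (b * c - b * a')) (y := s₁ + s₂ - 1)
      (by linarith)
    exact hno q h2 (by linarith)
  have hlen' : (b : ℤ) * c + a + a' + 1 ≤ o := by exact_mod_cast hlen
  have hd0' : (c : ℤ) + dl ≤ m * k + a + a' := by exact_mod_cast hd0
  have hdl0 : (0 : ℤ) ≤ dl := Int.natCast_nonneg _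
  have hbm : b * m ≤ b * c := Nat.mul_le_mul_left b hmc
  have har : a + a' + 1 ≤ r := by omega
  -- `2 dl > m k + 10`
  have hdk : m * k + 10 < 2 * dl := by
    have h1 : m * 1 ≤ m * ρ := Nat.mul_le_mul_left m N.ρ1
    omega
  have hdk' : (m : ℤ) * k + 10 < 2 * dl := by exact_mod_cast hdk
  -- the second part of (A)
  have hA3 : ¬ Even (s * b) → (b + 1) * c + 2 + 2 * ((o + c) % 2) ≤ o + m * k := by
    intro _
    have hb2 : (b + 1) * c = b * c + c := by ring
    have h2 := Nat.mod_lt (o + c) (show 0 < 2 by norm_num)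
    omega
  by_cases hex : a = 0 ∧ a' = 0 ∧ b * c + 1 = o
  · obtain ⟨rfl, rfl, h3⟩ := hex
    have h3' : (b : ℤ) * c + 1 = o := by exact_mod_cast h3
    push_cast at *
    right
    -- the interval has exactly `o - 1` elements
    obtain ⟨q, h4, h5⟩ := exists_mul ho (x := s₀ + s₁ - (b * c - b * 0)) (y := s₁ + s₂)
      (by linarith)
    have h6 : s₁ + s₂ = q * o := by
      have h7 := hno q h4
      omega
    have h7 : s₂ - s₀ = 0 := by
      by_contra h8
      obtain ⟨q', h9, h10⟩ := exists_mul ho (x := s₀ + s₁ - (b * c - b * 0)) (y := s₁ + s₂ - 1)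
        (by
          have : 1 ≤ s₂ - s₀ := by omega
          linarith)
      exact hno q' h9 (by linarith)
    exact ⟨trivial, trivial, h3, by linarith, by linarith, q, by linarith⟩
  left
  have hlen2 : b * c + 2 ≤ o := by omega
  refine ⟨hlen2, ?_, hA3⟩
  rintro ⟨K, hK⟩
  have hKo : (b : ℤ) * n = 2 * (K * o) := by
    have : b * n = 2 * (K * o) := by rw [e2, hK]; ring
    exact_mod_cast this
  have x3 : (b : ℤ) * (m * k + a + a' - c - dl) = b * (m * k) + b * a + b * a' - b * c - b * dl := by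
    ring
  rw [x3] at hlo
  by_cases h1 : s₀ + s₁ - (b * c - b * a') ≤ (K : ℤ) * o
  · -- `K o ≥ s₁ + s₂`
    exfalso
    have h2 := hno K h1
    push Not at h2
    have h3 : 2 * ((b : ℤ) * dl) + 2 * (b * c) + 2 * a' ≤ b * (m * k) + 2 * (b * a) := by linarith
    have h4 : (b : ℤ) * a ≤ b * c := by
      have : b * a ≤ b * c := Nat.mul_le_mul_left b (by omega)
      exact_mod_cast this
    have h5 : (b : ℤ) * (m * k + 10) < b * (2 * dl) := mul_lt_mul_of_pos_left hdk' (by linarith)
    have h6 : (b : ℤ) * (m * k + 10) = b * (m * k) + 10 * b := by ring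
    have h7 : (b : ℤ) * (2 * dl) = 2 * (b * dl) := by ring
    linarith
  push Not at h1
  have h3 : 2 * (a : ℤ) + 2 ≤ b * (m * k + 2 * a' - 2 * c) := by
    have h4 : (b : ℤ) * (m * k + 2 * a' - 2 * c) = b * (m * k) + 2 * (b * a') - 2 * (b * c) := by
      ring
    rw [h4]
    linarith
  have h4 : 0 < (m : ℤ) * k + 2 * a' - 2 * c := by
    by_contra h5
    push Not at h5
    have h6 := mul_nonneg (show (0 : ℤ) ≤ b by linarith) (neg_nonneg.2 h5)
    linarith
  by_cases h5 : 1 ≤ a ∨ b * c + a + a' + 2 ≤ o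
  · have h6 : 2 * ((b : ℤ) * c) + 2 * c + 5 ≤ 2 * o + m * k := by
      rcases h5 with h5 | h5
      · have h7 : (1 : ℤ) ≤ a := by exact_mod_cast h5
        linarith
      · have h7 : (b : ℤ) * c + a + a' + 2 ≤ o := by exact_mod_cast h5
        linarith
    have h7 : 2 * (b * c) + 2 * c + 5 ≤ 2 * o + m * k := by exact_mod_cast h6
    have h8 : 2 * ((b + 1) * c) = 2 * (b * c) + 2 * c := by ring
    omega
  push Not at h5
  obtain ⟨h5, h6⟩ := h5
  have ha : a = 0 := by omega
  subst ha
  have h7 : b * c + a' + 1 = o := by omega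
  have h7' : (b : ℤ) * c + a' + 1 = o := by exact_mod_cast h7
  push_cast at *
  -- the interval has exactly `o - 1` elements, and `s₁ + s₂` is a multiple
  obtain ⟨q, h8, h9⟩ := exists_mul ho (x := s₀ + s₁ - (b * c - b * a')) (y := s₁ + s₂)
    (by linarith)
  have h10 : s₁ + s₂ = q * o := by
    have h11 := hno q h8
    omega
  have h11 : s₂ - s₀ = b * a' + a' := by
    by_contra h12
    obtain ⟨q', h13, h14⟩ := exists_mul ho (x := s₀ + s₁ - (b * c - b * a')) (y := s₁ + s₂ - 1)
      (by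
        have : b * a' + a' + 1 ≤ s₂ - s₀ := by
          have h15 : (b : ℤ) * a' + a' ≤ s₂ - s₀ := by linarith
          omega
        linarith)
    exact hno q' h13 (by linarith)
  have h12 : s₂ = b * a' + a' := by linarith
  have h13 : s₀ = 0 := by linarith
  obtain ⟨j, hj⟩ : ∃ j : ℤ, q = K + j := ⟨q - K, by ring⟩
  have h14 : q * (o : ℤ) = K * o + j * o := by rw [hj]; ring
  have ho' : (1 : ℤ) ≤ o := by exact_mod_cast ho
  have hj1 : 1 ≤ j := by
    by_contra h15
    push Not at h15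
    have h16 : j * (o : ℤ) ≤ 0 * o := mul_le_mul_of_nonneg_right (by omega) (by linarith)
    linarith
  rcases eq_or_lt_of_le hj1 with h15 | h15
  · -- `j = 1`
    exfalso
    rw [← h15, one_mul] at h14
    have h16 : (b : ℤ) * (m * k + 10) < b * (2 * dl) := mul_lt_mul_of_pos_left hdk' (by linarith)
    have h17 : (b : ℤ) * (m * k + 10) = b * (m * k) + 10 * b := by ring
    have h18 : (b : ℤ) * (2 * dl) = 2 * (b * dl) := by ring
    linarith
  · -- `j ≥ 2`
    have h16 : 2 * (o : ℤ) ≤ j * o := mul_le_mul_of_nonneg_right (by omega) (by linarith)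
    have h17 : 4 * (o : ℤ) ≤ b * (m * k) + 2 * (b * a') + 2 * a' := by linarith
    have h18 : (a' : ℤ) = o - 1 - b * c := by linarith
    have hbm' : (b : ℤ) * m ≤ o := by
      have : b * m ≤ o := by omega
      exact_mod_cast this
    have hm' : (10 : ℤ) ≤ m := by
      have : 10 ≤ m := by omega
      exact_mod_cast this
    -- divide by `b`
    have h19 : (b : ℤ) * (2 * (b * c) + 2 * c + 5) ≤ b * (2 * o + m * k) := by
      rw [h18] at h17
      have y1 : (b : ℤ) * (2 * (b * c) + 2 * c + 5) = 2 * (b * (b * c)) + 2 * (b * c) + 5 * b := by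
        ring
      have y2 : (b : ℤ) * (2 * o + m * k) = 2 * (b * o) + b * (m * k) := by ring
      have y3 : 2 * ((b : ℤ) * (o - 1 - b * c)) = 2 * (b * o) - 2 * b - 2 * (b * (b * c)) := by
        ring
      have y4 : 10 * (b : ℤ) ≤ b * m := by
        rw [mul_comm]
        exact mul_le_mul_of_nonneg_left hm' (by linarith)
      rw [y1, y2]
      rw [y3] at h17
      linarith
    have h20 := le_of_mul_le_mul_left h19 (by linarith)
    have h21 : 2 * (b * c) + 2 * c + 5 ≤ 2 * o + m * k := by exact_mod_cast h20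
    have h22 : 2 * ((b + 1) * c) = 2 * (b * c) + 2 * c := by ring
    omega

/-- the numbers in the exceptional case -/
theorem aextra {m t n s o b ρ k p c dl η : ℕ} {s₁ q : ℤ} (N : Num m t n s o b ρ k p)
    (P : Part m n b k c 0 0 dl 0 s₁ 0) (ho : b * c + 1 = o) (hq : s₁ = q * o)
    (hdl : p * (m * s) < m * s + p * η + p * dl) (hm : 2 * (p * s * (1 + b * η)) < m) :
    CB t s o b ρ k p c := by
  obtain ⟨e1, e2, e3, r, hr, hrs, hr1, hrm⟩ := N.nats
  have hb := N.b1
  have hm0 := N.m0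
  have hup := P.up
  have hlo := P.lo
  have hnt := N.nt
  have htb := N.tb
  have hks := N.ks
  have hos := N.os
  have hp2 : 2 ≤ p := by
    rw [N.hp]
    refine (Nat.minFac_prime ?_).two_le
    have := N.s3
    have : 1 * 3 ≤ m * s := Nat.mul_le_mul hm0 this
    omega
  have ho0 : 0 < o := by omega
  -- `2 s₁ = (s b + j) o`
  obtain ⟨j, hj⟩ : ∃ j : ℤ, 2 * q = s * b + j := ⟨2 * q - s * b, by ring⟩
  have e2' : (b : ℤ) * n = s * b * o := by exact_mod_cast e2
  have h1 : 2 * s₁ = b * n + j * o := by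
    rw [hq, ← mul_assoc, hj, add_mul, e2']
  have ho' : (b : ℤ) * c + 1 = o := by exact_mod_cast ho
  have hos' : (o : ℤ) * s = t * m := by
    rw [hnt] at hos
    exact_mod_cast hos
  have htb' : (t : ℤ) = b * s + ρ := by exact_mod_cast htb
  have hks' : (k : ℤ) + ρ = s := by exact_mod_cast hks
  have hdl' : (p : ℤ) * (m * s) < m * s + p * η + p * dl := by exact_mod_cast hdl
  have hmη : 2 * ((p : ℤ) * s * (1 + b * η)) < m := by exact_mod_cast hm
  have hm' : (0 : ℤ) < m := by exact_mod_cast hm0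
  have hb' : (1 : ℤ) ≤ b := by exact_mod_cast hb
  have hp' : (2 : ℤ) ≤ p := by exact_mod_cast hp2
  have hs' : (3 : ℤ) ≤ s := by exact_mod_cast N.s3
  push_cast at hlo
  -- `j o ≤ b m k`
  have h2 : j * o ≤ b * (m * k) := by linarith
  -- `j o ≥ 2 b c - b m k + 2 b dl`
  have h3 : 2 * (b * c) - b * (m * k) + 2 * (b * dl) ≤ j * o := by
    have : 2 * ((b : ℤ) * (m * k + 0 + 0 - c - dl)) = 2 * (b * (m * k)) - 2 * (b * c) - 2 * (b * dl) := by
      ring
    rw [this] at hlo
    linarith
  -- the conditions for `j`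
  have h4 : j * t ≤ b * s * k := by
    have h5 : j * t * m ≤ b * s * k * m := by
      calc j * t * m = j * o * s := by rw [mul_assoc, mul_assoc, hos']
        _ ≤ b * (m * k) * s := mul_le_mul_of_nonneg_right h2 (by linarith)
        _ = b * s * k * m := by ring
    exact le_of_mul_le_mul_right h5 hm'
  have h5 : (b : ℤ) * s * ((p - 2) * s + p * ρ) + 2 * (p * t) ≤ p * (j * t) := by
    by_contra hcon
    push Not at hcon
    have h6 : (p : ℤ) * (j * t) + 1 ≤ b * s * ((p - 2) * s + p * ρ) + 2 * (p * t) := by omega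
    have h7 : ((p : ℤ) * (j * t) + 1) * m ≤ (b * s * ((p - 2) * s + p * ρ) + 2 * (p * t)) * m :=
      mul_le_mul_of_nonneg_right h6 hm'.le
    -- `p s` times `h3`
    have h8 : (p : ℤ) * s * (2 * (b * c) - b * (m * k) + 2 * (b * dl)) ≤ p * s * (j * o) :=
      mul_le_mul_of_nonneg_left h3 (by positivity)
    have h9 : (p : ℤ) * s * (j * o) = p * (j * t) * m := by
      calc (p : ℤ) * s * (j * o) = p * (j * (o * s)) := by ring
        _ = p * (j * t) * m := by rw [hos']; ring
    have h10 : (b : ℤ) * s * (p * (m * s)) ≤ b * s * (m * s + p * η + p * dl) :=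
      mul_le_mul_of_nonneg_left hdl'.le (by positivity)
    have h11 : (p : ℤ) * s * (2 * (b * c) - b * (m * k) + 2 * (b * dl)) =
        2 * p * (o * s) - 2 * p * s - p * b * m * s * k + 2 * (b * s * (p * dl)) := by
      have : (b : ℤ) * c = o - 1 := by linarith
      rw [this]
      ring
    rw [h9, h11, hos'] at h8
    have h12 : (b : ℤ) * s * ((p - 2) * s + p * ρ) * m =
        2 * (b * s * (p * (m * s))) - 2 * (b * s * (m * s)) - p * b * m * s * k := by
      have : (ρ : ℤ) = s - k := by linarith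
      rw [this]
      ring
    have h13 : 2 * ((p : ℤ) * s * (1 + b * η)) = 2 * p * s + 2 * (b * s * (p * η)) := by ring
    have h14 : (b : ℤ) * s * (m * s + p * η + p * dl) =
        b * s * (m * s) + b * s * (p * η) + b * s * (p * dl) := by ring
    rw [h13] at hmη
    rw [h14] at h10
    have h15 : ((p : ℤ) * (j * t) + 1) * m = p * (j * t) * m + m := by ring
    have h16 : ((b : ℤ) * s * ((p - 2) * s + p * ρ) + 2 * (p * t)) * m =
        b * s * ((p - 2) * s + p * ρ) * m + 2 * p * (t * m) := by ring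
    rw [h15, h16, h12] at h7
    linarith
  have hj0 : 0 ≤ j := by
    by_contra hcon
    push Not at hcon
    have h6 : (0 : ℤ) ≤ b * s * ((p - 2) * s + p * ρ) + 2 * (p * t) := by
      have h7 : (0 : ℤ) ≤ p - 2 := by linarith
      positivity
    have h7 : (p : ℤ) * (j * t) < 0 := by
      have ht : (0 : ℤ) < t := by
        rw [htb']
        positivity
      have h8 : j * t < 0 := mul_neg_of_neg_of_pos hcon ht
      exact mul_neg_of_pos_of_neg (by linarith) h8
    linarith
  obtain ⟨j', rfl⟩ := Int.eq_ofNat_of_zero_le hj0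
  refine ⟨ho, j', ?_, ?_, ?_⟩
  · omega
  · exact_mod_cast h4
  · have h6 : ((p - 2 : ℕ) : ℤ) = (p : ℤ) - 2 := by omega
    rw [← h6] at h5
    exact_mod_cast h5

end Pool.Agent.Lib.MPa7239a.X1
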