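import Mathlib

/-! Project X1 (MP_a7239a_co), module DEG: the degenerate case of the numbers of condition (B).

Pure number theory. Write `w = s - p ρ`. The two inequalities give `p + 1 ≤ w ≤ 2 p + 1`, with
`w = 2 p + 1` only if `b = 1`. With `d = gcd (s, ρ)` the equation `j t = b s k` becomes
`u t' = d (b + 1) ρ'`, `j = s' (d - u)`, and only two families of solutions remain. -/

set_option autoImplicit false

namespace Pool.Agent.Lib.MPa7239a.X1

/-- The two inequalities, in terms of `w = s - p ρ`. -/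
theorem deg_w {p s b ρ k t j : ℕ} (hp2 : 2 ≤ p) (hb : 1 ≤ b) (hρ : 1 ≤ ρ) (hs : k + ρ = s)
    (ht : t = b * s + ρ) (hj : j * t = b * s * k)
    (h3 : b * s * ((p - 2) * s + p * ρ) + 2 * (p * t) ≤ p * (j * t))
    (h3' : p * (j * t) < b * s * ((p - 2) * s + p * ρ) + 2 * (p * t) + 2 * (p * t)) :
    ∃ w : ℕ, s = p * ρ + w ∧ p + 1 ≤ w ∧ b * w < 2 * p * b + 2 := by
  have hs1 : 1 ≤ s := by omega
  have ht1 : 1 ≤ t := by rw [ht]; omega
  have hp2' : ((p - 2 : ℕ) : ℤ) = (p : ℤ) - 2 := by
    rw [Nat.cast_sub hp2]; norm_num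
  rw [hj] at h3 h3'
  have a3 : (b : ℤ) * s * (((p : ℤ) - 2) * s + p * ρ) + 2 * (p * t) ≤ p * (b * s * k) := by
    rw [← hp2']
    exact_mod_cast h3
  have a3' : (p : ℤ) * (b * s * k) <
      (b : ℤ) * s * (((p : ℤ) - 2) * s + p * ρ) + 2 * (p * t) + 2 * (p * t) := by
    rw [← hp2']
    exact_mod_cast h3'
  have hk' : (k : ℤ) = s - ρ := by
    have : (k : ℤ) + ρ = s := by exact_mod_cast hs
    linarith
  have ht' : (t : ℤ) = b * s + ρ := by exact_mod_cast ht
  have hb0 : (1 : ℤ) ≤ b := by exact_mod_cast hb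
  have hs0 : (1 : ℤ) ≤ s := by exact_mod_cast hs1
  have hρ0 : (1 : ℤ) ≤ ρ := by exact_mod_cast hρ
  have hp0 : (2 : ℤ) ≤ p := by exact_mod_cast hp2
  have hbs : (1 : ℤ) ≤ b * s := by nlinarith
  have hpρ : (2 : ℤ) ≤ p * ρ := by nlinarith
  -- first inequality
  have e1 : (p : ℤ) * t ≤ b * s * (s - p * ρ) := by
    rw [hk'] at a3
    nlinarith [a3]
  have e2 : (b : ℤ) * s * (s - p * ρ) < 2 * (p * t) := by
    rw [hk'] at a3'
    nlinarith [a3']
  have e3 : (0 : ℤ) < (b : ℤ) * s * ((s - p * ρ) - p) := by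
    rw [ht'] at e1
    nlinarith [e1]
  have e4 : (0 : ℤ) < (s - p * ρ) - p := by
    by_contra hcon
    push Not at hcon
    have : (b : ℤ) * s * ((s - p * ρ) - p) ≤ 0 :=
      mul_nonpos_of_nonneg_of_nonpos (by linarith) hcon
    linarith
  have e5 : (b : ℤ) * s * ((s - p * ρ) - 2 * p) < 2 * (p * ρ) := by
    rw [ht'] at e2
    nlinarith [e2]
  have e6 : (b : ℤ) * ((s - p * ρ) - 2 * p) < 2 := by
    by_contra hcon
    push Not at hcon
    have h1 : (s : ℤ) * 2 ≤ s * (b * ((s - p * ρ) - 2 * p)) :=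
      mul_le_mul_of_nonneg_left hcon (by linarith)
    nlinarith [h1, e5, e4]
  refine ⟨s - p * ρ, ?_, ?_, ?_⟩
  · have : p * ρ ≤ s := by
      have : (p : ℤ) * ρ ≤ s := by linarith
      exact_mod_cast this
    omega
  · have : (p : ℤ) * ρ + p < s := by linarith
    have : p * ρ + p < s := by exact_mod_cast this
    omega
  · have hle : p * ρ ≤ s := by
      have : (p : ℤ) * ρ ≤ s := by linarith
      exact_mod_cast this
    zify [hle]
    nlinarith [e6]

/-- The case `w' = 2`. -/
theorem deg_two {p b ρ s d u j K : ℕ} (hp : p.Prime) (hb : 1 ≤ b) (hρ : 1 ≤ ρ)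
    (hs : s = p * ρ + 2) (hd : d = p) (hu : u * (b * s + ρ) = d * (b + 1) * ρ)
    (hu1 : 1 ≤ u) (hj : j + s * u = s * d) (hK : 2 * K = d * s * b + j) :
    p ∣ d * s ∧ ¬ p ∣ K ∧ (p = 2 → 4 ∣ d * s) := by
  subst hd
  have hp2 := hp.two_le
  have hu2 : u < 2 := by
    by_contra hcon
    push Not at hcon
    have h1 : 2 * (b * s + ρ) ≤ u * (b * s + ρ) := Nat.mul_le_mul_right _ hcon
    rw [hu, hs] at h1
    nlinarith [Nat.mul_le_mul (Nat.mul_le_mul_left d hb) (le_refl ρ)]
  have hu' : u = 1 := by omega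
  subst hu'
  have hb2 : 2 * b + ρ = d * ρ := by
    rw [hs] at hu
    nlinarith [hu]
  have hK4 : 4 * K + s * s = d * (s * s) := by
    have h1 : 4 * K + 2 * s = 2 * (d * s * b) + 2 * (s * d) := by nlinarith [hK, hj]
    have h2 : s * (2 * b + ρ) = s * (d * ρ) := by rw [hb2]
    have h3 : d * s * (2 * b + ρ) = d * s * (d * ρ) := by rw [hb2]
    have h4 : s * s = s * (d * ρ + 2) := by rw [← hs]
    have h5 : d * (s * s) = d * (s * (d * ρ + 2)) := by rw [← hs]
    nlinarith [h1, h2, h3, h4, h5]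
  rcases hp.eq_two_or_odd' with h2 | hodd
  · subst h2
    have hρb : ρ = 2 * b := by omega
    subst hρb
    have hs' : s = 4 * b + 2 := by omega
    subst hs'
    have hK' : K = (2 * b + 1) * (2 * b + 1) := by nlinarith [hK4]
    refine ⟨dvd_mul_right _ _, ?_, fun _ => ⟨2 * b + 1, by ring⟩⟩
    rw [hK']
    intro hdv
    have : Odd ((2 * b + 1) * (2 * b + 1)) := (odd_two_mul_add_one b).mul (odd_two_mul_add_one b)
    exact (Nat.not_even_iff_odd.mpr this) (even_iff_two_dvd.mpr hdv)
  · refine ⟨dvd_mul_right _ _, ?_, fun h => ?_⟩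
    · intro hdv
      have h1 : d ∣ s * s := by
        have h2 : d ∣ 4 * K + s * s := by rw [hK4]; exact dvd_mul_right _ _
        exact (Nat.dvd_add_right (dvd_mul_of_dvd_right hdv 4)).mp h2
      have h2 : d ∣ s := by
        rcases (hp.dvd_mul).mp h1 with h | h <;> exact h
      rw [hs] at h2
      have h3 : d ∣ 2 := (Nat.dvd_add_right (dvd_mul_right _ _)).mp h2
      have h4 := Nat.le_of_dvd (by norm_num) h3
      have h5 : d = 2 := by omega
      subst h5
      exact absurd hodd (by decide)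
    · subst h
      exact absurd hodd (by decide)

/-- The case `w' = 1`, `p` odd: no solutions. -/
theorem deg_one_odd {p b ρ s d u j K : ℕ} (hp3 : 3 ≤ p) (hpo : Odd p) (hb : 1 ≤ b) (hρ : 1 ≤ ρ)
    (hs : s = p * ρ + 1) (hd1 : p + 1 ≤ d) (hd2 : b * d < 2 * p * b + 2) (hdo : Odd d)
    (hso : Odd s) (hu : u * (b * s + ρ) = d * (b + 1) * ρ)
    (hu1 : 1 ≤ u) (hj : j + s * u = s * d) (hK : 2 * K = d * s * b + j) : False := by
  have hρe : Even ρ := by
    by_contra hcon
    have hρo : Odd ρ := Nat.not_even_iff_odd.mp hcon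
    have h1 : Odd (p * ρ) := hpo.mul hρo
    have h2 : Even s := by rw [hs]; exact h1.add_odd odd_one
    exact (Nat.not_even_iff_odd.mpr hso) h2
  have hpar : Even (u + (b + 1)) := by
    have h1 : 2 * K + s * u = s * (d * b + d) := by nlinarith [hK, hj]
    have h2 : Even (s * (u + (d * b + d))) := by
      have : s * (u + (d * b + d)) = 2 * (K + s * u) := by nlinarith [h1]
      rw [this]; exact even_two_mul _
    have h3 : Even (u + (d * b + d)) := by
      rcases Nat.even_mul.mp h2 with h | h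
      · exact absurd h (Nat.not_even_iff_odd.mpr hso)
      · exact h
    have h4 : d * b + d = d * (b + 1) := by ring
    rw [h4] at h3
    rcases Nat.even_or_odd (b + 1) with h5 | h5
    · have h6 : Even (d * (b + 1)) := h5.mul_left d
      exact ((Nat.even_add.mp h3).mpr h6).add h5
    · have h6 : Odd (d * (b + 1)) := hdo.mul h5
      have h7 : Odd u := by
        by_contra hcon
        have h8 : Even u := Nat.not_odd_iff_even.mp hcon
        exact (Nat.not_even_iff_odd.mpr h6) ((Nat.even_add.mp h3).mp h8)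
      exact h7.add_odd h5
  -- main bound
  have hub : u * (p * b) < d * (b + 1) := by
    have h1 : u * (p * b) * ρ < d * (b + 1) * ρ := by
      rw [← hu, hs]
      have h2 : u * (b * (p * ρ + 1) + ρ) = u * (p * b) * ρ + u * (b + ρ) := by ring
      rw [h2]
      have h3 : 0 < u * (b + ρ) := Nat.mul_pos (by omega) (by omega)
      omega
    exact Nat.lt_of_mul_lt_mul_right h1
  obtain ⟨r, hr⟩ := hρe
  have hρr : ρ = 2 * r := by omega
  have hr1 : 1 ≤ r := by omega
  rcases Nat.lt_or_ge b 2 with hb1 | hb2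
  · -- b = 1
    have hb1' : b = 1 := by omega
    subst hb1'
    have hdle : d ≤ 2 * p + 1 := by omega
    have hu4 : u ≤ 4 := by
      by_contra hcon
      push Not at hcon
      have h1 : 5 * (p * 1) ≤ u * (p * 1) := Nat.mul_le_mul_right _ hcon
      omega
    have hue : Even u := by
      have : u + (1 + 1) = u + 2 := by ring
      rw [this] at hpar
      exact (Nat.even_add.mp hpar).mpr even_two
    have hu24 : u = 2 ∨ u = 4 := by
      rcases hue with ⟨v, hv⟩
      omega
    rcases hu24 with h | h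
    · subst h
      rw [hs, hρr] at hu
      -- 2 (2 p r + 1 + 2 r) = 2 d * 2 r : 2 p r + 1 + 2 r = 2 d r
      have h1 : p * (2 * r) + 1 + 2 * r = d * (2 * r) := by nlinarith [hu]
      have h2 : 2 * (p * r + r) + 1 = 2 * (d * r) := by nlinarith [h1]
      omega
    · subst h
      rw [hs] at hu
      have h1 : 2 * (p * ρ) + 2 + 2 * ρ = d * ρ := by nlinarith [hu]
      have h2 : d * ρ ≤ (2 * p + 1) * ρ := Nat.mul_le_mul_right _ hdle
      nlinarith [h1, h2]
  · have hdle : d ≤ 2 * p := by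
      by_contra hcon
      push Not at hcon
      have h1 : b * (2 * p + 1) ≤ b * d := Nat.mul_le_mul_left _ hcon
      nlinarith [h1, hd2]
    have hu2 : u ≤ 2 := by
      by_contra hcon
      push Not at hcon
      have h1 : 3 * (p * b) ≤ u * (p * b) := Nat.mul_le_mul_right _ hcon
      have h2 : d * (b + 1) ≤ 2 * p * (b + 1) := Nat.mul_le_mul_right _ hdle
      have h3 : p * 2 ≤ p * b := Nat.mul_le_mul_left _ hb2
      nlinarith [h1, h2, h3, hub]
    rcases Nat.even_or_odd b with hbe | hbo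
    · -- b even: u = 1
      have huo : Odd u := by
        by_contra hcon
        have h1 : Even u := Nat.not_odd_iff_even.mp hcon
        have h2 : Even (b + 1) := (Nat.even_add.mp hpar).mp h1
        exact (Nat.not_even_iff_odd.mpr (hbe.add_odd odd_one)) h2
      have hu' : u = 1 := by
        rcases huo with ⟨v, hv⟩
        omega
      subst hu'
      rw [hs] at hu
      have h1 : (p + 1) * (b + 1) * ρ ≤ d * (b + 1) * ρ :=
        Nat.mul_le_mul_right _ (Nat.mul_le_mul_right _ hd1)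
      rw [← hu] at h1
      have h2 : b * 1 ≤ b * ρ := Nat.mul_le_mul_left _ hρ
      have h3 : 1 ≤ p * ρ := Nat.mul_pos (by omega) (by omega)
      nlinarith [h1, h2, h3]
    · -- b odd: u = 2
      have hue : Even u := by
        have h2 : Even (b + 1) := hbo.add_odd odd_one
        exact (Nat.even_add.mp hpar).mpr h2
      have hu' : u = 2 := by
        rcases hue with ⟨v, hv⟩
        omega
      subst hu'
      obtain ⟨c, hc⟩ := hbo
      rw [hs, hρr] at hu
      -- 2 (b (2 p r + 1) + 2 r) = 2 d (b + 1) r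
      have h1 : b * (p * (2 * r) + 1) + 2 * r = d * (b + 1) * r := by nlinarith [hu]
      have h2 : d * (b + 1) * r = 2 * (d * (c + 1) * r) := by rw [hc]; ring
      have h3 : b * (p * (2 * r) + 1) + 2 * r = 2 * (b * (p * r)) + b + 2 * r := by ring
      rw [h2, h3] at h1
      omega

/-- The case `w' = 1`, `p = 2`. -/
theorem deg_one_two {b ρ s d u j K : ℕ} (hb : 1 ≤ b) (hρ : 1 ≤ ρ)
    (hs : s = 2 * ρ + 1) (hd1 : 3 ≤ d) (hd2 : b * d < 4 * b + 2)
    (hu : u * (b * s + ρ) = d * (b + 1) * ρ)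
    (hu1 : 1 ≤ u) (hj : j + s * u = s * d) (hK : 2 * K = d * s * b + j) :
    2 ∣ d * s ∧ ¬ 2 ∣ K ∧ 4 ∣ d * s := by
  have hd5 : d ≤ 5 := by
    by_contra hcon
    push Not at hcon
    have h1 : b * 6 ≤ b * d := Nat.mul_le_mul_left _ hcon
    omega
  have hcases : d = 3 ∨ d = 4 ∨ d = 5 := by omega
  have hpar : 2 * (K + s * u) = s * (u + d * (b + 1)) := by
    nlinarith [hK, hj]
  have hso : Odd s := ⟨ρ, hs⟩
  have hev : Even (u + d * (b + 1)) := by
    have h2 : Even (s * (u + d * (b + 1))) := by rw [← hpar]; exact even_two_mul _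
    rcases Nat.even_mul.mp h2 with h | h
    · exact absurd h (Nat.not_even_iff_odd.mpr hso)
    · exact h
  rcases hcases with h | h | h
  · subst h
    exfalso
    rcases Nat.lt_or_ge u 2 with h1 | h1
    · have hu' : u = 1 := by omega
      subst hu'
      rw [hs] at hu
      have h2 : b * 1 ≤ b * ρ := Nat.mul_le_mul_left _ hρ
      nlinarith [hu, h2]
    · have h2 : 2 * (b * s + ρ) ≤ u * (b * s + ρ) := Nat.mul_le_mul_right _ h1
      rw [hu, hs] at h2
      have h3 : 1 * ρ ≤ b * ρ := Nat.mul_le_mul_right _ hb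
      nlinarith [h2, h3]
  · subst h
    have hue : Even u := by
      have h1 : Even (4 * (b + 1)) := ⟨2 * (b + 1), by ring⟩
      exact (Nat.even_add.mp hev).mpr h1
    have hu4 : u < 4 := by
      by_contra hcon
      push Not at hcon
      have h2 : 4 * (b * s + ρ) ≤ u * (b * s + ρ) := Nat.mul_le_mul_right _ hcon
      rw [hu, hs] at h2
      have h3 : 1 * ρ ≤ b * ρ := Nat.mul_le_mul_right _ hb
      nlinarith [h2, h3]
    have hu' : u = 2 := by
      rcases hue with ⟨v, hv⟩
      omega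
    subst hu'
    have hbρ : b = ρ := by
      rw [hs] at hu
      nlinarith [hu]
    subst hbρ
    subst hs
    have hK' : K = (2 * b + 1) * (2 * b + 1) := by nlinarith [hK, hj]
    refine ⟨⟨2 * (2 * b + 1), by ring⟩, ?_, ⟨2 * b + 1, by ring⟩⟩
    rw [hK']
    intro hdv
    have : Odd ((2 * b + 1) * (2 * b + 1)) := (odd_two_mul_add_one b).mul (odd_two_mul_add_one b)
    exact (Nat.not_even_iff_odd.mpr this) (even_iff_two_dvd.mpr hdv)
  · subst h
    exfalso
    have hb1 : b = 1 := by omega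
    subst hb1
    have hue : Even u := by
      have h1 : Even (5 * (1 + 1)) := by decide
      exact (Nat.even_add.mp hev).mpr h1
    have hu4 : u < 4 := by
      by_contra hcon
      push Not at hcon
      have h2 : 4 * (1 * s + ρ) ≤ u * (1 * s + ρ) := Nat.mul_le_mul_right _ hcon
      rw [hu, hs] at h2
      omega
    have hu' : u = 2 := by
      rcases hue with ⟨v, hv⟩
      omega
    subst hu'
    rw [hs] at hu
    omega

/-- MODULE DEG. -/
theorem deg {p s b ρ k t j K : ℕ} (hp : p.Prime) (hps : ∀ q : ℕ, q.Prime → q ∣ s → p ≤ q)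
    (hb : 1 ≤ b) (hρ : 1 ≤ ρ) (hk : 1 ≤ k) (hs : k + ρ = s) (ht : t = b * s + ρ)
    (hj : j * t = b * s * k) (hK : 2 * K = s * b + j)
    (h3 : b * s * ((p - 2) * s + p * ρ) + 2 * (p * t) ≤ p * (j * t))
    (h3' : p * (j * t) < b * s * ((p - 2) * s + p * ρ) + 2 * (p * t) + 2 * (p * t)) :
    p ∣ s ∧ ¬ p ∣ K ∧ (p = 2 → 4 ∣ s) := by
  have hp2 := hp.two_le
  obtain ⟨w, hsw, hw1, hw2⟩ := deg_w hp2 hb hρ hs ht hj h3 h3'
  clear h3 h3'
  obtain ⟨s', ρ', hcop, hs', hρ'⟩ := Nat.exists_coprime s ρ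
  obtain ⟨d, hd⟩ : ∃ d, d = Nat.gcd s ρ := ⟨_, rfl⟩
  rw [← hd] at hs' hρ'
  have hs1 : 1 ≤ s := by omega
  have hd1 : 1 ≤ d := by
    rcases Nat.eq_zero_or_pos d with h | h
    · rw [h, Nat.mul_zero] at hs'; omega
    · exact h
  have hρ1 : 1 ≤ ρ' := by
    rcases Nat.eq_zero_or_pos ρ' with h | h
    · rw [h, Nat.zero_mul] at hρ'; omega
    · exact h
  have hs'1 : 1 ≤ s' := by
    rcases Nat.eq_zero_or_pos s' with h | h
    · rw [h, Nat.zero_mul] at hs'; omega
    · exact h
  have hlt : ρ' < s' := by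
    have : ρ' * d < s' * d := by rw [← hs', ← hρ']; omega
    exact Nat.lt_of_mul_lt_mul_right this
  obtain ⟨k', hk'⟩ : ∃ k', s' = k' + ρ' := ⟨s' - ρ', by omega⟩
  have hkk : k = k' * d := by
    have : k + ρ' * d = (k' + ρ') * d := by rw [← hk', ← hs', ← hρ']; exact hs
    nlinarith [this]
  have hk'1 : 1 ≤ k' := by omega
  -- `d ∣ w`
  obtain ⟨w', hw'⟩ : d ∣ w := by
    have h1 : d ∣ s := ⟨s', by rw [hs']; ring⟩
    have h2 : d ∣ p * ρ := ⟨p * ρ', by rw [hρ']; ring⟩
    rw [hsw] at h1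
    exact (Nat.dvd_add_right h2).mp h1
  have hs'w : s' = p * ρ' + w' := by
    have : s' * d = (p * ρ' + w') * d := by
      rw [← hs', hsw, hρ', hw']; ring
    exact Nat.eq_of_mul_eq_mul_right hd1 this
  obtain ⟨t', ht'⟩ : ∃ t', t' = b * s' + ρ' := ⟨_, rfl⟩
  have htt : t = t' * d := by rw [ht, ht', hs', hρ']; ring
  have ht'1 : 1 ≤ t' := by rw [ht']; omega
  have hcop' : Nat.Coprime t' s' := by
    rw [ht']
    have : b * s' + ρ' = ρ' + b * s' := by ring
    rw [this]
    exact (Nat.coprime_add_mul_right_left _ _ _).mpr hcop.symm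
  have hjt : j * t' = s' * (d * (b * k')) := by
    have h1 : j * (t' * d) = b * (s' * d) * (k' * d) := by rw [← htt, ← hs', ← hkk]; exact hj
    have h2 : (j * t') * d = (s' * (d * (b * k'))) * d := by rw [mul_assoc, h1]; ring
    exact Nat.eq_of_mul_eq_mul_right hd1 h2
  obtain ⟨v, hv⟩ : t' ∣ d * (b * k') := by
    have h1 : t' ∣ s' * (d * (b * k')) := ⟨j, by rw [← hjt]; ring⟩
    exact hcop'.dvd_of_dvd_mul_left h1
  have hbk : b * k' + (b + 1) * ρ' = t' := by rw [ht', hk']; ring
  have hvd : v < d := by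
    have h1 : t' * v < t' * d := by
      rw [← hv]
      have h2 : b * k' < t' := by
        have : 0 < (b + 1) * ρ' := Nat.mul_pos (by omega) (by omega)
        omega
      calc d * (b * k') < d * t' := Nat.mul_lt_mul_of_pos_left h2 hd1
        _ = t' * d := by ring
    exact Nat.lt_of_mul_lt_mul_left h1
  obtain ⟨u, hu⟩ : ∃ u, d = v + u := ⟨d - v, by omega⟩
  have hu1 : 1 ≤ u := by omega
  have hut : u * t' = d * (b + 1) * ρ' := by
    have h1 : d * t' = d * (b * k') + d * ((b + 1) * ρ') := by rw [← hbk]; ring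
    have h2 : d * t' = v * t' + u * t' := by rw [hu]; ring
    have h3 : d * (b * k') = v * t' := by rw [hv]; ring
    have h4 : d * ((b + 1) * ρ') = d * (b + 1) * ρ' := by ring
    omega
  have hjs : j = s' * v := by
    have h1 : j * t' = s' * v * t' := by rw [hjt, hv]; ring
    exact Nat.eq_of_mul_eq_mul_right ht'1 h1
  have hjd : j + s' * u = s' * d := by rw [hjs, hu]; ring
  have hv1 : 1 ≤ v := by
    rcases Nat.eq_zero_or_pos v with h | h
    · rw [h, Nat.mul_zero] at hv
      have : 0 < d * (b * k') := Nat.mul_pos hd1 (Nat.mul_pos hb hk'1)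
      omega
    · exact h
  have hd2 : 2 ≤ d := by omega
  have hpd : p ≤ d := by
    have h1 : d.minFac.Prime := Nat.minFac_prime (by omega)
    have h2 : d.minFac ∣ s := (Nat.minFac_dvd d).trans ⟨s', by rw [hs']; ring⟩
    exact (hps _ h1 h2).trans (Nat.minFac_le (by omega))
  have hw3 : w ≤ 2 * p + 1 := by
    by_contra hcon
    push Not at hcon
    have h1 : b * (2 * p + 2) ≤ b * w := Nat.mul_le_mul_left _ hcon
    nlinarith [h1, hw2]
  have hw'3 : w' < 3 := by
    by_contra hcon
    push Not at hcon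
    have h1 : d * 3 ≤ d * w' := Nat.mul_le_mul_left _ hcon
    omega
  have hw'0 : w' ≠ 0 := by
    rintro rfl
    rw [Nat.mul_zero] at hw'
    omega
  have hsd : s = d * s' := by rw [hs']; ring
  rw [ht'] at hut
  have hK' : 2 * K = d * s' * b + j := by rw [← hsd]; exact hK
  have hcases : w' = 1 ∨ w' = 2 := by omega
  rcases hcases with h | h
  · subst h
    rw [Nat.mul_one] at hw'
    subst hw'
    rcases hp.eq_two_or_odd' with h2 | hodd
    · subst h2
      have := deg_one_two hb hρ1 hs'w hw1 (by omega) hut hu1 hjd hK'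
      rw [hsd]
      exact ⟨this.1, this.2.1, fun _ => this.2.2⟩
    · exfalso
      have hp3 : 3 ≤ p := by
        rcases hodd with ⟨v, hv⟩
        omega
      have hso : Odd s := by
        by_contra hcon
        have h1 : Even s := Nat.not_odd_iff_even.mp hcon
        have h2 := hps 2 Nat.prime_two (even_iff_two_dvd.mp h1)
        omega
      rw [hsd] at hso
      have hso' := Nat.odd_mul.mp hso
      exact deg_one_odd hp3 hodd hb hρ1 hs'w hw1 hw2 hso'.1 hso'.2 hut hu1 hjd hK'
  · subst h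
    have hdp : d = p := by omega
    rw [hsd]
    exact deg_two hp hb hρ1 hs'w hdp hut hu1 hjd hK'

end Pool.Agent.Lib.MPa7239a.X1
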