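import Mathlib

/-!
# X1, module DST: distributions of missing elements
-/

set_option autoImplicit false

open Finset

namespace Pool.Agent.Lib.MPa7239a.X1

/-- Induction on `D` (for all `W`): for `D + 1` put one missing element into row `min W b` and use
the distribution for `D`, `W - min W b`. -/
theorem exists_dist {b : ℕ} (hb : 1 ≤ b) (D W : ℕ) (h : W ≤ b * D) :
    ∃ f : ℕ → ℕ, (∀ i, f i ≤ D) ∧ (∀ i, b < i → f i = 0) ∧
      ∑ i ∈ range (b + 1), f i = D ∧ ∑ i ∈ range (b + 1), i * f i = W ∧
      b * D + 1 ≤ b * f 0 + W + b := by
  induction D generalizing W with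
  | zero =>
    have hW : W = 0 := by simpa using h
    subst hW
    exact ⟨fun _ => 0, by simp, by simp, by simp, by simp, by simpa using hb⟩
  | succ D ih =>
    obtain ⟨f, h1, h2, h3, h4, h5⟩ := ih (W - min W b) (by
      rw [Nat.mul_succ] at h
      omega)
    refine ⟨fun i => f i + if i = min W b then 1 else 0, fun i => ?_, fun i hi => ?_, ?_, ?_, ?_⟩
    · have := h1 i
      dsimp only
      split_ifs <;> omega
    · have := h2 i hi
      have h6 : i ≠ min W b := by omega
      simp only [this, if_neg h6]
    · rw [sum_add_distrib, h3, sum_ite_eq' (range (b + 1)) (min W b) (fun _ => 1),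
        if_pos (mem_range.2 (by omega))]
    · simp only [Nat.mul_add, mul_ite, mul_one, mul_zero, sum_add_distrib, h4]
      rw [sum_ite_eq' (range (b + 1)) (min W b) (fun i => i),
        if_pos (mem_range.2 (by omega))]
      omega
    · have h6 : b * (f 0 + if 0 = min W b then 1 else 0) =
          b * f 0 + if 0 = min W b then b else 0 := by
        split_ifs <;> ring
      have h10 : b * (D + 1) = b * D + b := by ring
      change b * (D + 1) + 1 ≤ b * (f 0 + if 0 = min W b then 1 else 0) + W + b
      rw [h6, h10]
      rcases Nat.lt_or_ge W b with hWb | hWb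
      · have h7 : min W b = W := by omega
        rw [h7, Nat.sub_self, Nat.add_zero] at h5
        rw [h7]
        have h8 : D ≤ f 0 := by
          by_contra h8
          push Not at h8
          have h9 : b * (f 0 + 1) ≤ b * D := Nat.mul_le_mul_left b h8
          rw [Nat.mul_succ] at h9
          omega
        have h9 : b * D ≤ b * f 0 := Nat.mul_le_mul_left b h8
        split_ifs <;> omega
      · have h7 : min W b = b := by omega
        rw [h7] at h5 ⊢
        split_ifs <;> omega

end Pool.Agent.Lib.MPa7239a.X1
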