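import Pool.Agent.Lib.MP_a7239a_co.RK.Defs

/-!
# The exact value for `|G| = n ^ 2 / t` (X1): definitions

`n = t * m = o * s`, `t = b * s + ρ`, `k = s - ρ`, `h = m * s` is the order of `H`, `p` the least
prime factor of `h`.
-/

set_option autoImplicit false

open Finset

namespace Pool.Agent.Lib.MPa7239a.X1

open Pool.Agent.Lib.MPa7239a.GC
open Pool.Agent.Lib.MPa7239a.RK

/-- the condition (A) -/
def CA (m s o b k c : ℕ) : Prop :=
  b * c + 2 ≤ o ∧ (Even (s * b) → 2 * ((b + 1) * c) + 5 ≤ 2 * o + m * k) ∧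
    (¬ Even (s * b) → (b + 1) * c + 2 + 2 * ((o + c) % 2) ≤ o + m * k)

/-- the number `j` is admissible in the condition (B) -/
def Adj (t s b ρ k p j : ℕ) : Prop :=
  j % 2 = s * b % 2 ∧ j * t ≤ b * s * k ∧
    b * s * ((p - 2) * s + p * ρ) + 2 * (p * t) ≤ p * (j * t)

/-- the condition (B) -/
def CB (t s o b ρ k p c : ℕ) : Prop :=
  b * c + 1 = o ∧ ∃ j, Adj t s b ρ k p j

/-- the numbers belonging to a divisor `s` of `n` which does not divide `t` -/
structure Num (m t n s o b ρ k p : ℕ) : Prop where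
  nt : n = t * m
  tb : t = b * s + ρ
  ks : k + ρ = s
  b1 : 1 ≤ b
  ρ1 : 1 ≤ ρ
  k1 : 1 ≤ k
  s3 : 3 ≤ s
  os : o * s = n
  hp : p = (m * s).minFac
  m0 : 1 ≤ m

/-- the sums of the three parts of `A`, abstractly: `a` elements below row `0` with sum `s₀`, `a'`
above row `b` with sum `s₂`, the sum `s₁` over the rows `0, ..., b`; `dl` elements of the coset are
missing in row `0` -/
structure Part (m n b k c a a' dl : ℕ) (s₀ s₁ s₂ : ℤ) : Prop where
  le₀ : s₀ ≤ -a
  ge₂ : ((b : ℤ) + 1) * a' ≤ s₂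
  d0 : c + dl ≤ m * k + a + a'
  up : 2 * s₁ ≤ b * n + b * (m * k)
  lo : (b : ℤ) * n + b * (m * k) ≤ 2 * s₁ + 2 * (b * (m * k + a + a' - c - dl))

end Pool.Agent.Lib.MPa7239a.X1
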