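import Pool.Agent.Lib.MP_a7239a_co.X1.Defs

/-!
# Module IDX: a subgroup of index `p` of a subgroup `K`
-/

set_option autoImplicit false

namespace Pool.Agent.Lib.MPa7239a.X1

theorem exists_surj_mod {p : ℕ} [Fact p.Prime] (V : Type*) [AddCommGroup V] [Module (ZMod p) V]
    {v : V} (hv : v ≠ 0) : ∃ f : V →+ ZMod p, Function.Surjective f := by
  obtain ⟨f, hf⟩ : ∃ f : Module.Dual (ZMod p) V, f v ≠ 0 := by
    by_contra hc
    apply hv
    rw [← Module.forall_dual_apply_eq_zero_iff (ZMod p)]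
    intro φ
    by_contra hφ
    exact hc ⟨φ, hφ⟩
  refine ⟨f.toAddMonoidHom, fun c => ⟨(c * (f v)⁻¹) • v, ?_⟩⟩
  show f ((c * (f v)⁻¹) • v) = c
  rw [map_smul, smul_eq_mul, mul_assoc, inv_mul_cancel₀ hf, mul_one]

theorem exists_surj {p : ℕ} [Fact p.Prime] (V : Type*) [AddCommGroup V]
    (hV : ∀ x : V, p • x = 0) {v : V} (hv : v ≠ 0) :
    ∃ f : V →+ ZMod p, Function.Surjective f :=
  @exists_surj_mod p _ V _ (AddCommGroup.zmodModule hV) v hv

/-- a surjective homomorphism onto `ZMod p` -/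
theorem exists_hom_zmod {K : Type*} [AddCommGroup K] [Finite K] {p : ℕ} (hp : p.Prime)
    (h : p ∣ Nat.card K) : ∃ F : K →+ ZMod p, Function.Surjective F := by
  have hpf : Fact p.Prime := ⟨hp⟩
  set N : AddSubgroup K := (nsmulAddMonoidHom (α := K) p).range with hN
  obtain ⟨v, hv⟩ : ∃ v : K, v ∉ N := by
    by_contra hc
    have hc' : ∀ v : K, v ∈ N := fun v => by
      by_contra hv
      exact hc ⟨v, hv⟩
    have hsurj : Function.Surjective (nsmulAddMonoidHom (α := K) p) := fun v => hc' v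
    have hinj := Finite.injective_iff_surjective.2 hsurj
    obtain ⟨x, hx⟩ := exists_prime_addOrderOf_dvd_card' (G := K) p h
    have h1 : (nsmulAddMonoidHom (α := K) p) x = (nsmulAddMonoidHom (α := K) p) 0 := by
      simp only [nsmulAddMonoidHom_apply, smul_zero]
      rw [← hx]
      exact addOrderOf_nsmul_eq_zero x
    have h2 : x = 0 := hinj h1
    rw [h2, addOrderOf_zero] at hx
    exact hp.one_lt.ne hx
  let V := K ⧸ N
  have hV : ∀ x : V, p • x = 0 := by
    intro x
    obtain ⟨y, rfl⟩ := QuotientAddGroup.mk_surjective x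
    rw [← QuotientAddGroup.mk_nsmul]
    exact (QuotientAddGroup.eq_zero_iff _).2 ⟨y, rfl⟩
  have hv' : (QuotientAddGroup.mk v : V) ≠ 0 := fun h0 =>
    hv ((QuotientAddGroup.eq_zero_iff v).1 h0)
  obtain ⟨f, hf⟩ := exists_surj V hV hv'
  exact ⟨f.comp (QuotientAddGroup.mk' N), fun c => by
    obtain ⟨w, hw⟩ := hf c
    obtain ⟨y, rfl⟩ := QuotientAddGroup.mk_surjective w
    exact ⟨y, hw⟩⟩

/-- **IDX**. -/
theorem exists_index {G : Type*} [AddCommGroup G] [Finite G] (K : AddSubgroup G) {p : ℕ}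
    (hp : p.Prime) (h : p ∣ Nat.card K) :
    ∃ L : AddSubgroup G, L ≤ K ∧ Nat.card K = p * Nat.card L := by
  have hpf : Fact p.Prime := ⟨hp⟩
  obtain ⟨F, hF⟩ := exists_hom_zmod (K := K) hp h
  refine ⟨F.ker.map K.subtype, ?_, ?_⟩
  · rintro x ⟨y, -, rfl⟩
    exact y.2
  · have h1 : Nat.card (F.ker.map K.subtype : AddSubgroup G) = Nat.card F.ker :=
      Nat.card_congr (AddSubgroup.equivMapOfInjective F.ker K.subtype
        (AddSubgroup.subtype_injective K)).toEquiv.symm
    have h2 : Nat.card F.ker * F.ker.index = Nat.card K := AddSubgroup.card_mul_index F.ker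
    have h3 : F.ker.index = p := by
      rw [AddSubgroup.index_ker, AddMonoidHom.range_eq_top.2 hF]
      simp
    rw [h1, ← h2, h3, mul_comm]

end Pool.Agent.Lib.MPa7239a.X1
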