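import Pool.Agent.Lib.MP_a7239a_co.X1.Defs
import Pool.Agent.Lib.MP_a7239a_co.RK.LOW4

/-!
# The exact value (X1), module LA: the lower bound (A)

`rowsA`: rows `- 1, ..., b + 1` with `D` elements missing in the rows `0, ..., b` (the sum of the
row numbers of the missing elements is `W`), `y₁` elements in row `b + 1` and `y₂` elements in row
`- 1`.
-/

set_option autoImplicit false

open Finset

namespace Pool.Agent.Lib.MPa7239a.X1

open Pool.Agent.Lib.MPa7239a.GC
open Pool.Agent.Lib.MPa7239a.RK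

/-- `D` missing elements with a given sum of the row numbers -/
theorem exists_distA {b : ℕ} (D W : ℕ) (h : W ≤ b * D) :
    ∃ f : ℕ → ℕ, (∀ i, f i ≤ D) ∧ ∑ i ∈ range (b + 1), f i = D ∧
      ∑ i ∈ range (b + 1), i * f i = W := by
  induction D generalizing W with
  | zero =>
    refine ⟨fun _ => 0, fun _ => le_rfl, by simp, ?_⟩
    have : W = 0 := by simpa using h
    simp [this]
  | succ D ih =>
    obtain ⟨f, hf₁, hf₂, hf₃⟩ := ih (W - min W b) (by
      have : b * (D + 1) = b * D + b := by ring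
      omega)
    refine ⟨fun i => f i + if i = min W b then 1 else 0, fun i => ?_, ?_, ?_⟩
    · have := hf₁ i
      show f i + (if i = min W b then 1 else 0) ≤ D + 1
      split_ifs <;> omega
    · rw [sum_add_distrib, hf₂, Finset.sum_ite_eq' (range (b + 1)) (min W b) (fun _ => 1),
        if_pos (by rw [mem_range]; omega)]
    · have h1 : ∀ i, i * (f i + if i = min W b then 1 else 0) =
          i * f i + if i = min W b then min W b else 0 := by
        intro i
        split_ifs with h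
        · rw [← h]; ring
        · ring
      rw [sum_congr rfl (fun i _ => h1 i), sum_add_distrib, hf₃,
        Finset.sum_ite_eq' (range (b + 1)) (min W b) (fun _ => min W b),
        if_pos (by rw [mem_range]; omega)]
      omega

/-- the numbers of elements in the rows -/
def cntA (h b : ℕ) (f : ℕ → ℕ) (y₁ y₂ : ℕ) (i : ℤ) : ℕ :=
  if 0 ≤ i ∧ i ≤ b then h - f i.toNat else if i = b + 1 then y₁ else if i = -1 then y₂ else 0

theorem cntA_le {h b : ℕ} {f : ℕ → ℕ} {y₁ y₂ : ℕ} (hy₁ : y₁ ≤ h) (hy₂ : y₂ ≤ h) (i : ℤ) :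
    cntA h b f y₁ y₂ i ≤ h := by
  unfold cntA
  split_ifs <;> omega

theorem cntA_top {h b : ℕ} {f : ℕ → ℕ} {y₁ y₂ : ℕ} : cntA h b f y₁ y₂ (b + 1) = y₁ := by
  unfold cntA
  rw [if_neg (by omega), if_pos rfl]

theorem cntA_bot {h b : ℕ} {f : ℕ → ℕ} {y₁ y₂ : ℕ} : cntA h b f y₁ y₂ (-1) = y₂ := by
  unfold cntA
  rw [if_neg (by omega), if_neg (by omega), if_pos rfl]

theorem cntA_cast {h b : ℕ} {f : ℕ → ℕ} {y₁ y₂ : ℕ} (hf : ∀ i, f i ≤ h) (i : ℤ) :
    (cntA h b f y₁ y₂ i : ℤ) = (if 0 ≤ i ∧ i ≤ b then (h : ℤ) else 0) -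
      (if 0 ≤ i ∧ i ≤ b then (f i.toNat : ℤ) else 0) +
      (if i = b + 1 then (y₁ : ℤ) else 0) + (if i = -1 then (y₂ : ℤ) else 0) := by
  unfold cntA
  by_cases h1 : 0 ≤ i ∧ i ≤ b
  · have e1 : ¬ (i = b + 1) := by omega
    have e2 : ¬ (i = -1) := by omega
    rw [if_pos h1, if_pos h1, if_pos h1, if_neg e1, if_neg e2, Nat.cast_sub (hf _)]
    ring
  · rw [if_neg h1, if_neg h1, if_neg h1]
    by_cases h2 : i = b + 1
    · have e2 : ¬ (i = -1) := by omega
      rw [if_pos h2, if_pos h2, if_neg e2]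
      ring
    · rw [if_neg h2, if_neg h2]
      split_ifs <;> simp

/-- sums over the rows `0, ..., b` -/
theorem sum_mid_range (b : ℕ) (g : ℤ → ℤ) :
    ∑ i ∈ Icc (-1 : ℤ) (b + 1), (if 0 ≤ i ∧ i ≤ (b : ℤ) then g i else 0) =
      ∑ i ∈ range (b + 1), g (i : ℤ) := by
  rw [← Finset.sum_filter]
  symm
  refine Finset.sum_nbij' (fun i : ℕ => (i : ℤ)) (fun i : ℤ => i.toNat) ?_ ?_ ?_ ?_ ?_
  · intro i hi
    rw [mem_range] at hi
    rw [mem_filter, mem_Icc]
    omega
  · intro i hi
    rw [mem_filter, mem_Icc] at hi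
    rw [mem_range]
    omega
  · intro i _
    simp
  · intro i hi
    rw [mem_filter, mem_Icc] at hi
    show ((i.toNat : ℕ) : ℤ) = i
    omega
  · intro i _
    rfl

theorem sum_cntA {h b D : ℕ} {f : ℕ → ℕ} {y₁ y₂ : ℕ} (hf : ∀ i, f i ≤ h)
    (hD : ∑ i ∈ range (b + 1), f i = D) :
    (∑ i ∈ Icc (-1 : ℤ) (b + 1), (cntA h b f y₁ y₂ i : ℤ)) = (b + 1) * h - D + y₁ + y₂ := by
  have h1 := sum_mid_range b (fun _ => (h : ℤ))
  have h2 := sum_mid_range b (fun i => (f i.toNat : ℤ))
  have h4 := sum_ind b 1 (y₁ : ℤ) (a := b + 1) (by omega) (by omega)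
  have h5 := sum_ind b 1 (y₂ : ℤ) (a := -1) (by omega) (by omega)
  simp only [one_mul] at h4 h5
  have h3 : ∑ i ∈ range (b + 1), ((f ((i : ℤ).toNat) : ℕ) : ℤ) = D := by
    rw [← hD]
    push_cast
    exact sum_congr rfl fun i _ => by rw [Int.toNat_natCast]
  rw [sum_congr rfl (fun i _ => cntA_cast hf i), sum_add_distrib, sum_add_distrib,
    sum_sub_distrib, h1, h2, h4, h5, h3, sum_const, card_range, nsmul_eq_mul]
  push_cast
  ring

theorem sum_mul_cntA {h b W : ℕ} {f : ℕ → ℕ} {y₁ y₂ : ℕ} (hf : ∀ i, f i ≤ h)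
    (hW : ∑ i ∈ range (b + 1), i * f i = W) :
    (∑ i ∈ Icc (-1 : ℤ) (b + 1), i * (cntA h b f y₁ y₂ i : ℤ)) =
      cen b h - W + (b + 1) * y₁ - y₂ := by
  have h2 := sum_mid_range b (fun i => i * (f i.toNat : ℤ))
  have h4 := sum_ind' b (y₁ : ℤ) (a := b + 1) (by omega) (by omega)
  have h5 := sum_ind' b (y₂ : ℤ) (a := -1) (by omega) (by omega)
  have h3 : ∑ i ∈ range (b + 1), (i : ℤ) * ((f ((i : ℤ).toNat) : ℕ) : ℤ) = W := by
    rw [← hW]
    push_cast
    exact sum_congr rfl fun i _ => by rw [Int.toNat_natCast]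
  have h6 : ∀ i : ℤ, i * (cntA h b f y₁ y₂ i : ℤ) =
      i * (if 0 ≤ i ∧ i ≤ b then (h : ℤ) else 0) -
      (if 0 ≤ i ∧ i ≤ b then i * (f i.toNat : ℤ) else 0) +
      i * (if i = b + 1 then (y₁ : ℤ) else 0) + i * (if i = -1 then (y₂ : ℤ) else 0) := fun i => by
    rw [cntA_cast hf i]
    by_cases h1 : 0 ≤ i ∧ i ≤ b
    · rw [if_pos h1, if_pos h1, if_pos h1]; ring
    · rw [if_neg h1, if_neg h1, if_neg h1]; ring
  rw [sum_congr rfl (fun i _ => h6 i), sum_add_distrib, sum_add_distrib,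
    sum_sub_distrib, h2, h4, h5, h3]
  unfold cen
  ring

theorem rowsA {m t n s o b ρ k p c y₁ y₂ D W : ℕ} (N : Num m t n s o b ρ k p)
    (hbo : b + 3 ≤ o) (hy₁ : y₁ ≤ m * s) (hy₂ : y₂ ≤ m * s) (hD : D + c = m * k + y₁ + y₂)
    (hDh : D ≤ m * s) (hW : W ≤ b * D) {q : ℤ}
    (hq₁ : 2 * (q * o) + 2 * (b * c + y₁ + y₂) + 2 + 2 * W ≤ b * n + b * (m * k) + 2 * ((b + 1) * y₁))
    (hq₂ : (b : ℤ) * n + b * (m * k) + 2 * ((b + 1) * y₁) + 2 ≤ 2 * ((q + 1) * o) + 2 * W) :
    ∃ A : Finset (ZMod m × ZMod (t * m)), #A = t * m + c ∧ CycFree A (t * m) := by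
  classical
  have hm : 0 < m := N.m0
  have hs : 0 < s := by have := N.s3; omega
  have hb := N.b1
  have ht0 : 0 < t := by
    rw [N.tb]
    have := N.ρ1
    omega
  have hos : o * s = t * m := by rw [N.os, N.nt]
  obtain ⟨φ, hφ⟩ := exists_fibres hm ht0 hos
  choose F hF hFφ using hφ
  obtain ⟨f, hf₁, hf₂, hf₃⟩ := exists_distA D W hW
  have hfh : ∀ i, f i ≤ m * s := fun i => le_trans (hf₁ i) hDh
  have hcle : ∀ i : ℤ, cntA (m * s) b f y₁ y₂ i ≤ #(F (i : ZMod o)) := fun i => by
    rw [hF]; exact cntA_le hy₁ hy₂ i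
  choose S hSF hScard using fun i : ℤ => Finset.exists_subset_card_eq (hcle i)
  have hs1 := sum_cntA (h := m * s) (b := b) (y₁ := y₁) (y₂ := y₂) hfh hf₂
  have hs2 := sum_mul_cntA (h := m * s) (b := b) (y₁ := y₁) (y₂ := y₂) hfh hf₃
  -- `(b + 1) m s = n + m k`
  have hN : ((b : ℤ) + 1) * (m * s) = n + m * k := by
    have h1 : n = (b * s + ρ) * m := by rw [N.nt, N.tb]
    have h2 := N.ks
    rw [h1, ← h2]
    push_cast
    ring
  have hntm : (n : ℤ) = t * m := by exact_mod_cast N.nt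
  have hcard' : ∑ i ∈ Icc (-1 : ℤ) (b + 1), #(S i) = t * m + c := by
    have h1 : (∑ i ∈ Icc (-1 : ℤ) (b + 1), (#(S i) : ℤ)) = ((t * m + c : ℕ) : ℤ) := by
      rw [sum_congr rfl (fun i _ => by rw [hScard i]), hs1]
      have h2 : ((D + c : ℕ) : ℤ) = ((m * k + y₁ + y₂ : ℕ) : ℤ) := by exact_mod_cast hD
      push_cast at h2 ⊢
      linarith
    exact_mod_cast h1
  have hmul : ∑ i ∈ Icc (-1 : ℤ) (b + 1), i * (#(S i) : ℤ) =
      cen b (m * s) - W + (b + 1) * y₁ - y₂ := by
    rw [sum_congr rfl (fun i _ => by rw [hScard i]), hs2]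
  have hcen := two_cen b (m * s)
  have hcen' : 2 * cen b (m * s) = b * n + b * (m * k) := by
    rw [hcen]
    push_cast
    have : (b : ℤ) * (b + 1) * (m * s) = b * ((b + 1) * (m * s)) := by ring
    rw [this, hN]
    ring
  have e1 : (-(q + 1)) * (o : ℤ) = - ((q + 1) * o) := by ring
  have e2 : (-(q + 1) + 1) * (o : ℤ) = - (q * o) := by ring
  have hav := avoid_phi (o := o) φ (b := b) S
    (fun i x hx => hFφ _ x (hSF i hx)) hbo (y₁ := y₁) (y₂ := y₂) (c := c)
    (n := t * m) (by rw [hScard]; exact cntA_top.le) (by rw [hScard]; exact cntA_bot.le)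
    (k := -(q + 1)) hcard' (by rw [hmul, e1]; linarith) (by rw [hmul, e2]; linarith)
  refine ⟨_, hav.1, o, φ, by omega, ?_, hav.2⟩
  intro z
  have h1 : 0 < #(F z) := by
    rw [hF]
    exact Nat.mul_pos hm hs
  obtain ⟨x, hx⟩ := card_pos.1 h1
  exact ⟨x, hFφ z x hx⟩

theorem low_A {m t n s o b ρ k p c : ℕ} (N : Num m t n s o b ρ k p) (hm : 100 * t ^ 2 ≤ m)
    (hmc : m ≤ c) (h : CA m s o b k c) :
    ∃ A : Finset (ZMod m × ZMod (t * m)), #A = t * m + c ∧ CycFree A (t * m) := by
  obtain ⟨h1, h2, h3⟩ := h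
  have hb := N.b1
  have hs := N.s3
  have hρ := N.ρ1
  have hk := N.k1
  have hks := N.ks
  have ht1 : 1 ≤ t := by rw [N.tb]; omega
  have hm100 : 100 ≤ m := by nlinarith
  have hc100 : 100 ≤ c := by omega
  have hbo : b + 3 ≤ o := by
    have : b * 100 ≤ b * c := Nat.mul_le_mul_left b hc100
    omega
  have hn : n = (b * s + ρ) * m := by rw [N.nt, N.tb]
  -- `(b + 1) m s = n + m k`
  have hN : (b + 1) * (m * s) = n + m * k := by
    rw [hn, ← hks]; ring
  have hos := N.os
  -- `c < 2 m`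
  have hc2 : c < 2 * m := by
    have h4 : o * s < (b + 1) * m * s := by
      rw [hos]
      have h5 : 0 < m * k := Nat.mul_pos (by omega) (by omega)
      have h6 : (b + 1) * m * s = (b + 1) * (m * s) := by ring
      omega
    have h5 : o < (b + 1) * m := Nat.lt_of_mul_lt_mul_right h4
    have h6 : (b + 1) * m ≤ b * (2 * m) := by nlinarith
    have h7 : b * c < b * (2 * m) := by omega
    exact Nat.lt_of_mul_lt_mul_left h7
  have hms : 3 * m ≤ m * s := by nlinarith
  have hks' : m * s = m * k + m * ρ := by rw [← hks]; ring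
  have hmρ : m ≤ m * ρ := Nat.le_mul_of_pos_right m hρ
  by_cases hev : Even (s * b)
  · have h4 := h2 hev
    obtain ⟨Q, hQ⟩ := hev
    have hbn : b * n = 2 * (Q * o) := by
      rw [← hos]
      have : b * (o * s) = (s * b) * o := by ring
      rw [this, hQ]; ring
    -- `b m k` is even
    obtain ⟨M, hM⟩ : ∃ M, b * (m * k) = 2 * M := by
      have h5 : Even (b * (b + 1)) := Nat.even_mul_succ_self b
      have h6 : Even (b * (b + 1) * (m * s)) := h5.mul_right _
      have h7 : b * (b + 1) * (m * s) = 2 * (Q * o) + b * (m * k) := by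
        rw [← hbn, mul_assoc, hN]; ring
      rw [h7] at h6
      have h8 : Even (b * (m * k)) := (Nat.even_add.1 h6).1 ⟨Q * o, by ring⟩
      obtain ⟨M, hM⟩ := h8
      exact ⟨M, by omega⟩
    -- the number `f` of elements in row `b + 1`
    obtain ⟨f, hf₁, hf₂⟩ : ∃ f, 2 * c + 1 ≤ m * k + 2 * f ∧ (f = 0 ∨ m * k + 2 * f ≤ 2 * c + 2) := by
      rcases Nat.lt_or_ge (2 * c) (m * k) with h5 | h5
      · exact ⟨0, by omega, Or.inl rfl⟩
      · exact ⟨(2 * c + 2 - m * k) / 2, by omega, Or.inr (by omega)⟩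
    have hfo : b * c + f + 2 ≤ o := by
      rcases hf₂ with h5 | h5
      · rw [h5]; omega
      · have e1 : 2 * ((b + 1) * c) = 2 * (b * c) + 2 * c := by ring
        omega
    obtain ⟨D, hD⟩ : ∃ D, D + c = m * k + f := ⟨m * k + f - c, by omega⟩
    have hbD : b * D + b * c = 2 * M + b * f := by rw [← mul_add, hD, mul_add, hM]
    have h5 : b * (2 * c + 1) ≤ b * (m * k + 2 * f) := Nat.mul_le_mul_left b hf₁
    have e2 : b * (2 * c + 1) = 2 * (b * c) + b := by ring
    have e3 : b * (m * k + 2 * f) = 2 * M + 2 * (b * f) := by rw [mul_add, hM]; ring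
    obtain ⟨W, hW⟩ : ∃ W, W + b * c + 1 = M + b * f := ⟨M + b * f - b * c - 1, by omega⟩
    have hbn' : (b : ℤ) * n = 2 * (Q * o) := by exact_mod_cast hbn
    have hM' : (b : ℤ) * (m * k) = 2 * M := by exact_mod_cast hM
    have hW' : (W : ℤ) + b * c + 1 = M + b * f := by exact_mod_cast hW
    have hfo' : (b : ℤ) * c + f + 2 ≤ o := by exact_mod_cast hfo
    refine rowsA N hbo (y₁ := f) (y₂ := 0) (D := D) (W := W) (q := (Q : ℤ)) ?_ (Nat.zero_le _)
      (by omega) ?_ (by omega) ?_ ?_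
    · rcases hf₂ with h6 | h6 <;> omega
    · rcases hf₂ with h6 | h6 <;> omega
    · rw [hbn', hM']
      push_cast
      linarith
    · rw [hbn', hM']
      linarith
  · have h4 := h3 hev
    obtain ⟨Q, hQ⟩ := Nat.not_even_iff_odd.1 hev
    have hsodd : Odd s := by
      by_contra h5
      exact hev ((Nat.not_odd_iff_even.1 h5).mul_right b)
    have hbodd : Odd b := by
      by_contra h5
      exact hev ((Nat.not_odd_iff_even.1 h5).mul_left s)
    obtain ⟨s', hs'⟩ := hsodd
    obtain ⟨b', hb'⟩ := hbodd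
    have hbn : b * n = 2 * (Q * o) + o := by
      rw [← hos]
      have : b * (o * s) = (s * b) * o := by ring
      rw [this, hQ]; ring
    -- `o + m k` is even
    obtain ⟨R, hR⟩ : ∃ R, o + m * k = 2 * R := by
      have h5 : n + m * k = 2 * ((b' + 1) * (m * s)) := by
        rw [← hN, hb']; ring
      have h6 : n = 2 * (o * s') + o := by rw [← hos, hs']; ring
      exact ⟨(b' + 1) * (m * s) - o * s', by omega⟩
    have hbn' : (b : ℤ) * n = 2 * (Q * o) + o := by exact_mod_cast hbn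
    have h1' : (b : ℤ) * c + 2 ≤ o := by exact_mod_cast h1
    have hb2 : (b : ℤ) = 2 * b' + 1 := by exact_mod_cast hb'
    have e1 : (b + 1) * c = b * c + c := by ring
    rcases Nat.lt_or_ge (m * k) c with h5 | h5
    · -- `m k < c`
      obtain ⟨y, hy⟩ : ∃ y, c = m * k + 2 * y ∨ c + 1 = m * k + 2 * y :=
        ⟨(c + 1 - m * k) / 2, by omega⟩
      rcases hy with hy | hy
      · -- `c - m k` even
        have hy' : (c : ℤ) = m * k + 2 * y := by exact_mod_cast hy
        have h6 : b * c + c + 2 ≤ o + m * k := by omega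
        have h6' : (b : ℤ) * c + c + 2 ≤ o + m * k := by exact_mod_cast h6
        have e2 : (b : ℤ) * c = b * (m * k) + 2 * (b * y) := by rw [hy']; ring
        refine rowsA N hbo (y₁ := y) (y₂ := y) (D := 0) (W := 0) (q := (Q : ℤ)) (by omega)
          (by omega) (by omega) (Nat.zero_le _) (Nat.zero_le _) ?_ ?_
        · rw [hbn']
          push_cast
          linarith
        · rw [hbn']
          push_cast
          linarith
      · -- `c - m k` odd
        have hy' : (c : ℤ) + 1 = m * k + 2 * y := by exact_mod_cast hy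
        have h6 : b * c + c + 4 ≤ o + m * k := by omega
        have h6' : (b : ℤ) * c + c + 4 ≤ o + m * k := by exact_mod_cast h6
        have e2 : (b : ℤ) * c + b = b * (m * k) + 2 * (b * y) := by
          have : (b : ℤ) * c + b = b * (c + 1) := by ring
          rw [this, hy']; ring
        refine rowsA N hbo (y₁ := y) (y₂ := y) (D := 1) (W := b') (q := (Q : ℤ)) (by omega)
          (by omega) (by omega) (by omega) (by omega) ?_ ?_
        · rw [hbn']
          linarith
        · rw [hbn']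
          linarith
    · -- `c ≤ m k`
      obtain ⟨D, hD⟩ : ∃ D, D + c = m * k := ⟨m * k - c, by omega⟩
      have hD' : (D : ℤ) + c = m * k := by exact_mod_cast hD
      have hbD : (b : ℤ) * (m * k) = b * D + b * c := by rw [← hD']; ring
      rcases Nat.even_or_odd' D with ⟨d, hd | hd⟩
      · -- `D` even
        have hd' : (D : ℤ) = 2 * d := by exact_mod_cast hd
        have e2 : (b : ℤ) * D = 2 * (b * d) := by rw [hd']; ring
        refine rowsA N hbo (y₁ := 0) (y₂ := 0) (D := D) (W := b * d) (q := (Q : ℤ)) (Nat.zero_le _)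
          (Nat.zero_le _) (by omega) (by omega) (Nat.mul_le_mul_left b (by omega)) ?_ ?_
        · rw [hbn', hbD]
          push_cast
          linarith
        · rw [hbn', hbD]
          push_cast
          linarith
      · -- `D` odd
        have hd' : (D : ℤ) = 2 * d + 1 := by exact_mod_cast hd
        have e2 : (b : ℤ) * D = 2 * (b * d + b') + 1 := by rw [hd']; linear_combination hb2
        -- `b c + 3 ≤ o`
        have h7 : b * c + 3 ≤ o := by
          have e3 : b * c = 2 * (b' * c) + c := by rw [hb']; ring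
          omega
        have h7' : (b : ℤ) * c + 3 ≤ o := by exact_mod_cast h7
        have hWle : b * d + b' ≤ b * D := by
          have : b * D = 2 * (b * d) + b := by rw [hd]; ring
          omega
        refine rowsA N hbo (y₁ := 0) (y₂ := 0) (D := D) (W := b * d + b') (q := (Q : ℤ))
          (Nat.zero_le _) (Nat.zero_le _) (by omega) (by omega) hWle ?_ ?_
        · rw [hbn', hbD]
          push_cast
          linarith
        · rw [hbn', hbD]
          push_cast
          linarith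

end Pool.Agent.Lib.MPa7239a.X1
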