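import Pool.Agent.Lib.MP_a7239a_co.X1.LB1
import Pool.Agent.Lib.MP_a7239a_co.X1.DST
import Pool.Agent.Lib.MP_a7239a_co.X1.IDX
import Pool.Agent.Lib.MP_a7239a_co.RG.CYCG

/-!
# X1, module LB2: (B) with `W > 0`
-/

set_option autoImplicit false

open Finset

namespace Pool.Agent.Lib.MPa7239a.X1

open Pool.Agent.Lib.MPa7239a.GC
open Pool.Agent.Lib.MPa7239a.RK

/-- two sets of the same size whose sums differ modulo `L` -/
theorem two_sets {G : Type*} [AddCommGroup G] [DecidableEq G] (L : AddSubgroup G) {F : Finset G}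
    {r : ℕ} (hr : 1 ≤ r) (hrF : r < #F) {x y : G} (hx : x ∈ F) (hy : y ∈ F) (hxy : x - y ∉ L) :
    ∃ A₁ ⊆ F, ∃ A₂ ⊆ F, #A₁ = r ∧ #A₂ = r ∧ ∑ a ∈ A₁, a - ∑ a ∈ A₂, a ∉ L := by
  have hne : x ≠ y := by
    rintro rfl
    exact hxy (by rw [sub_self]; exact L.zero_mem)
  have hc : #((F.erase x).erase y) = #F - 1 - 1 := by
    rw [card_erase_of_mem (mem_erase.2 ⟨hne.symm, hy⟩), card_erase_of_mem hx]
  obtain ⟨B, hB, hBc⟩ := exists_subset_card_eq (s := (F.erase x).erase y) (n := r - 1)
    (by rw [hc]; omega)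
  have hxB : x ∉ B := fun h => (mem_erase.1 (mem_erase.1 (hB h)).2).1 rfl
  have hyB : y ∉ B := fun h => (mem_erase.1 (hB h)).1 rfl
  have hBF : B ⊆ F := fun a ha => (mem_erase.1 (mem_erase.1 (hB ha)).2).2
  refine ⟨insert x B, insert_subset hx hBF, insert y B, insert_subset hy hBF, ?_, ?_, ?_⟩
  · rw [card_insert_of_notMem hxB, hBc]
    omega
  · rw [card_insert_of_notMem hyB, hBc]
    omega
  · rw [sum_insert hxB, sum_insert hyB, add_sub_add_right_eq_sub]
    exact hxy

/-- **(B) with `W > 0`** -/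
theorem low_B_pos {G : Type*} [AddCommGroup G] [Finite G] [DecidableEq G]
    {m t n s o b ρ k p c j : ℕ} (N : Num m t n s o b ρ k p) (hexp : AddMonoid.exponent G = n)
    (hG : Nat.card G = m * n) (hbc : b * c + 1 = o) (hj : Adj t s b ρ k p j)
    (hW : j * t < b * s * k) (hm : 100 * t ^ 2 ≤ m) :
    ∃ A : Finset G, #A = n + c ∧ ¬ Hit A n 0 := by
  classical
  obtain ⟨hpp, hdvd, hmc, hck, h3, h4⟩ := arith_B N hbc hj
  obtain ⟨W, K, hW', hK⟩ := parity_B N hj h3
  have hdiv := div_B N hW' hK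
  have hs3 := N.s3
  have hb1 := N.b1
  have hm0 := N.m0
  have hρ1 := N.ρ1
  have hks := N.ks
  have hos := N.os
  have hnt := N.nt
  have ht1 : 1 ≤ t := by
    rw [N.tb]
    omega
  have hc2 : 2 ≤ c := by
    have h5 : 1 ≤ t ^ 2 := Nat.one_le_pow _ _ ht1
    omega
  have hjo : s * (j * o) = m * (j * t) := by
    calc s * (j * o) = j * (o * s) := by ring
      _ = m * (j * t) := by rw [hos, hnt]; ring
  have hWpos : 0 < W := by
    have h5 : j * o < b * (m * k) := by
      refine Nat.lt_of_mul_lt_mul_left (a := s) ?_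
      rw [hjo]
      calc m * (j * t) < m * (b * s * k) := Nat.mul_lt_mul_of_pos_left hW (by omega)
        _ = s * (b * (m * k)) := by ring
    omega
  have hbn : (b + 1) * (m * s) = n + m * k := by
    rw [hnt, N.tb, ← hks]
    ring
  have hmk : m * k + m * ρ = m * s := by rw [← hks]; ring
  have hmρ : 1 ≤ m * ρ := Nat.mul_pos hm0 hρ1
  have hWD : W ≤ b * (m * k - c) := by
    obtain ⟨D, hD⟩ : ∃ D, D + c = m * k := ⟨m * k - c, by omega⟩
    have h5 : m * k - c = D := by omega
    rw [h5]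
    have h6 : b * (D + c) = b * D + b * c := by ring
    have h7 : b * (2 * c + 1) ≤ b * (m * k) := Nat.mul_le_mul_left _ hck
    rw [hD] at h6
    have h8 : b * (2 * c + 1) = 2 * (b * c) + b := by ring
    omega
  have := Fintype.ofFinite G
  obtain ⟨χ, hχ⟩ := RG.exists_phi hexp
  have hon : o ∣ n := ⟨s, hos.symm⟩
  have hbo' : 1 < o := by nlinarith
  have hne : NeZero o := ⟨by omega⟩
  set φ : G →+ ZMod o := (ZMod.castHom hon (ZMod o)).toAddMonoidHom.comp χ with hφd
  have hφ : Function.Surjective φ := (ZMod.castHom_surjective hon).comp hχ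
  have hGo : Nat.card G = m * s * o := by
    rw [hG, ← hos]
    ring
  have hfib : ∀ i : ZMod o, #{x : G | φ x = i} = m * s := by
    intro i
    have h5 := RG.card_fib hφ i
    rw [hGo, mul_comm (m * s) o] at h5
    exact Nat.eq_of_mul_eq_mul_left (by omega) h5
  have hker : Nat.card φ.ker = m * s := RG.card_ker hφ hGo
  obtain ⟨L, hLK, hL⟩ := exists_index φ.ker hpp (hker.symm ▸ hdvd)
  rw [hker] at hL
  obtain ⟨f, hf1, hf2, hf3, hf4, hf5⟩ := exists_dist hb1 (m * k - c) W hWD
  have hfh : ∀ i, f i < m * s := fun i => lt_of_le_of_lt (hf1 i) (by omega)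
  have hLc : #{x : G | x ∈ L} = Nat.card L := by
    rw [← Fintype.card_subtype, ← Nat.card_eq_fintype_card]
  have hrow0 : m * s - f 0 ≤ Nat.card L := by
    have h5 := row_B N hbc hj hW' (hfh 0).le hf5
    rw [hL] at h5
    exact Nat.le_of_mul_le_mul_left (by rw [hL]; exact h5) hpp.pos
  -- the rows
  set F : ℕ → Finset G := fun i => if i = 0 then univ.filter (fun x : G => x ∈ L) else
    univ.filter (fun x : G => φ x = (i : ZMod o)) with hF
  have hFc : ∀ i, m * s - f i ≤ #(F i) := by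
    intro i
    by_cases hi : i = 0
    · subst hi
      simp only [hF, if_true]
      rw [hLc]
      exact hrow0
    · simp only [hF, if_neg hi]
      rw [hfib]
      omega
  have hFφ : ∀ i, ∀ x ∈ F i, φ x = (i : ZMod o) := by
    intro i x hx
    by_cases hi : i = 0
    · subst hi
      simp only [hF, if_true, mem_filter] at hx
      rw [Nat.cast_zero]
      exact AddMonoidHom.mem_ker.1 (hLK hx.2)
    · simp only [hF, if_neg hi, mem_filter] at hx
      exact hx.2
  obtain ⟨i₀, hi₀, hfi₀⟩ : ∃ i ∈ range (b + 1), i * f i ≠ 0 :=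
    exists_ne_zero_of_sum_ne_zero (by rw [hf4]; omega)
  have hi₀' : i₀ ≠ 0 := fun h => hfi₀ (by rw [h, zero_mul])
  have hfi₀' : 0 < f i₀ := Nat.pos_of_ne_zero fun h => hfi₀ (by rw [h, mul_zero])
  have hFi₀ : #(F i₀) = m * s := by
    simp only [hF, if_neg hi₀']
    exact hfib _
  obtain ⟨x, hx, y, hy, hxy⟩ : ∃ x ∈ F i₀, ∃ y ∈ F i₀, x - y ∉ L := by
    by_contra hcon
    push Not at hcon
    obtain ⟨y, hy⟩ : (F i₀).Nonempty := card_pos.1 (by rw [hFi₀]; have := hfh 0; omega)
    have h5 : #(F i₀) ≤ #{x : G | x ∈ L} := by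
      refine card_le_card_of_injOn (fun x => x - y) ?_ ?_
      · intro x hx
        rw [coe_filter]
        exact ⟨mem_univ _, hcon x hx y hy⟩
      · intro x _ x' _ h
        exact sub_left_injective h
    rw [hFi₀, hLc, hL] at h5
    have h6 : 0 < Nat.card L := Nat.card_pos
    have h7 := hpp.two_le
    nlinarith
  obtain ⟨A₁, hA₁, A₂, hA₂, hA₁c, hA₂c, hAA⟩ := two_sets L (r := m * s - f i₀)
    (by have := hfh i₀; omega) (by rw [hFi₀]; omega) hx hy hxy
  choose R hR hRc using fun i => exists_subset_card_eq (hFc i)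
  -- the two candidates
  have hmain : ∀ A : Finset G, A ⊆ F i₀ → #A = m * s - f i₀ →
      ∑ i ∈ (range (b + 1)).erase i₀, ∑ x ∈ R i, x + ∑ x ∈ A, x ∉ L →
      ∃ A : Finset G, #A = n + c ∧ ¬ Hit A n 0 := by
    intro A hA hAc hAL
    set S : ℕ → Finset G := fun i => if i = i₀ then A else R i with hS
    have hSF : ∀ i, S i ⊆ F i := by
      intro i
      by_cases hi : i = i₀
      · simp only [hS, if_pos hi]
        rw [hi]
        exact hA
      · simp only [hS, if_neg hi]
        exact hR i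
    have hSc : ∀ i, #(S i) = m * s - f i := by
      intro i
      by_cases hi : i = i₀
      · simp only [hS, if_pos hi]
        rw [hi]
        exact hAc
      · simp only [hS, if_neg hi]
        exact hRc i
    have hsumS : ∑ i ∈ range (b + 1), ∑ x ∈ S i, x =
        ∑ i ∈ (range (b + 1)).erase i₀, ∑ x ∈ R i, x + ∑ x ∈ A, x := by
      rw [← sum_erase_add _ _ hi₀]
      congr 1
      · refine sum_congr rfl fun i hi => ?_
        simp only [hS, if_neg (ne_of_mem_erase hi)]
      · simp only [hS, if_true]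
    refine ⟨_, avoid_B φ S (fun i x hx => hFφ i x (hSF i hx)) hb1 hbc hc2 L 0 ?_ ?_ ?_ ?_⟩
    · intro x hx
      have h5 := hSF 0 hx
      simp only [hF, if_true, mem_filter] at h5
      rw [sub_zero]
      exact h5.2
    · rw [sum_congr rfl fun i _ => hSc i]
      have h5 : ∑ i ∈ range (b + 1), (m * s - f i) + ∑ i ∈ range (b + 1), f i = n + m * k := by
        rw [← sum_add_distrib, ← hbn, sum_congr rfl fun i _ => Nat.sub_add_cancel (hfh i).le,
          sum_const, card_range, smul_eq_mul]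
      omega
    · rw [sum_congr rfl fun i _ => by rw [hSc i]]
      have h5 : ∑ i ∈ range (b + 1), i * (m * s - f i) + ∑ i ∈ range (b + 1), i * f i =
          K * o + W := by
        rw [← hdiv, sum_mul, ← sum_add_distrib]
        refine sum_congr rfl fun i _ => ?_
        rw [← mul_add, Nat.sub_add_cancel (hfh i).le]
      rw [hf4] at h5
      exact ⟨K, by rw [mul_comm o K]; omega⟩
    · rw [smul_zero, sub_zero, hsumS]
      exact hAL
  by_cases hL1 : ∑ i ∈ (range (b + 1)).erase i₀, ∑ x ∈ R i, x + ∑ x ∈ A₁, x ∈ L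
  · refine hmain A₂ hA₂ hA₂c fun hL2 => hAA ?_
    have h5 := L.sub_mem hL1 hL2
    rwa [add_sub_add_left_eq_sub] at h5
  · exact hmain A₁ hA₁ hA₁c hL1

end Pool.Agent.Lib.MPa7239a.X1
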