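import Pool.Agent.Lib.MP_a7239a_co.X1.LB1
import Pool.Agent.Lib.MP_a7239a_co.RG.CYCG

/-!
# X1, module LB3: (B) with `W = 0`
-/

set_option autoImplicit false

open Finset

namespace Pool.Agent.Lib.MPa7239a.X1

open Pool.Agent.Lib.MPa7239a.GC
open Pool.Agent.Lib.MPa7239a.RK

/-- the sum of the kernel of `φ = ψ mod o`, for `p` odd -/
theorem psi_sum_odd {G : Type*} [AddCommGroup G] [Fintype G] {o p : ℕ} [NeZero (p * o)]
    (hp : p.Prime) (hp2 : p ≠ 2) (ho : 0 < o) (ψ : G →+ ZMod (p * o)) {σ : G}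
    (h2 : σ + σ = 0) (hd : o ∣ (ψ σ).val) : ψ σ = 0 := by
  obtain ⟨u, hu⟩ := hd
  have h1 : ((2 * (ψ σ).val : ℕ) : ZMod (p * o)) = 0 := by
    rw [two_mul, Nat.cast_add, ZMod.natCast_zmod_val, ← map_add, h2, map_zero]
  rw [ZMod.natCast_eq_zero_iff, hu] at h1
  have h3 : p ∣ 2 * u := by
    have h4 : p * o ∣ 2 * u * o := by
      rw [mul_assoc, mul_comm u o]
      exact h1
    exact Nat.dvd_of_mul_dvd_mul_right ho h4
  have h5 : p ∣ u := by
    rcases (Nat.Prime.dvd_mul hp).1 h3 with h | h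
    · exact absurd ((Nat.prime_dvd_prime_iff_eq hp Nat.prime_two).1 h) hp2
    · exact h
  obtain ⟨v, rfl⟩ := h5
  have h6 : (ψ σ).val = 0 := by
    have h7 := ZMod.val_lt (ψ σ)
    rw [hu] at h7 ⊢
    have h8 : o * (p * v) = p * o * v := by ring
    rw [h8] at h7 ⊢
    rcases Nat.eq_zero_or_pos v with h | h
    · rw [h, mul_zero]
    · exact absurd h7 (not_lt.2 (Nat.le_mul_of_pos_right _ h))
  exact (ZMod.val_eq_zero _).1 h6

/-- **(B) with `W = 0`** -/
theorem low_B_zero {G : Type*} [AddCommGroup G] [Finite G] [DecidableEq G]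
    {m t n s o b ρ k p c j K : ℕ} (N : Num m t n s o b ρ k p) (hexp : AddMonoid.exponent G = n)
    (hG : Nat.card G = m * n) (hbc : b * c + 1 = o) (hj : Adj t s b ρ k p j)
    (hW : j * t = b * s * k) (hm : 100 * t ^ 2 ≤ m) (hK : 2 * K = s * b + j) (h1 : p ∣ s)
    (h2 : ¬ p ∣ K) (h3 : p = 2 → 4 ∣ s) :
    ∃ A : Finset G, #A = n + c ∧ ¬ Hit A n 0 := by
  classical
  obtain ⟨hpp, hdvd, hmc, hck, -, -⟩ := arith_B N hbc hj
  have hs3 := N.s3
  have hb1 := N.b1
  have hm0 := N.m0
  have hρ1 := N.ρ1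
  have hks := N.ks
  have hos := N.os
  have hnt := N.nt
  have hs0 : 0 < s := by omega
  have ht1 : 1 ≤ t := by
    rw [N.tb]
    omega
  have hc2 : 2 ≤ c := by
    have h5 : 1 ≤ t ^ 2 := Nat.one_le_pow _ _ ht1
    omega
  have hW0 : 2 * 0 + j * o = b * (m * k) := by
    rw [mul_zero, zero_add]
    refine Nat.eq_of_mul_eq_mul_left hs0 ?_
    calc s * (j * o) = j * (o * s) := by ring
      _ = m * (j * t) := by rw [hos, hnt]; ring
      _ = s * (b * (m * k)) := by rw [hW]; ring
  have hdiv := div_B N hW0 hK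
  rw [add_zero] at hdiv
  have hbn : (b + 1) * (m * s) = n + m * k := by
    rw [hnt, N.tb, ← hks]
    ring
  have hmk : m * k + m * ρ = m * s := by rw [← hks]; ring
  have hmρ : 1 ≤ m * ρ := Nat.mul_pos hm0 hρ1
  have hrow0 : p * (m * s - (m * k - c)) ≤ m * s :=
    row_B N hbc hj hW0 (by omega) (by omega)
  have := Fintype.ofFinite G
  obtain ⟨χ, hχ⟩ := RG.exists_phi hexp
  have hbo' : 1 < o := by nlinarith
  have hne : NeZero o := ⟨by omega⟩
  have hpo : 0 < p * o := Nat.mul_pos hpp.pos (by omega)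
  have hne' : NeZero (p * o) := ⟨hpo.ne'⟩
  have hpon : p * o ∣ n := by
    rw [← hos, mul_comm p o]
    exact Nat.mul_dvd_mul_left o h1
  set ψ : G →+ ZMod (p * o) := (ZMod.castHom hpon (ZMod (p * o))).toAddMonoidHom.comp χ with hψd
  have hψ : Function.Surjective ψ := (ZMod.castHom_surjective hpon).comp hχ
  set r : ZMod (p * o) →+ ZMod o :=
    (ZMod.castHom (Dvd.intro_left p rfl) (ZMod o)).toAddMonoidHom with hr
  have hrs : Function.Surjective r := ZMod.castHom_surjective (Dvd.intro_left p rfl)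
  have hrn : ∀ a : ℕ, r (a : ZMod (p * o)) = (a : ZMod o) := fun a => by
    rw [hr]
    exact map_natCast (ZMod.castHom (Dvd.intro_left p rfl) (ZMod o)) a
  set φ : G →+ ZMod o := r.comp ψ with hφd
  have hφ : Function.Surjective φ := hrs.comp hψ
  have hφψ : ∀ x, φ x = r (ψ x) := fun _ => rfl
  obtain ⟨h', hh'⟩ := hdvd
  have hGo : Nat.card G = m * s * o := by
    rw [hG, ← hos]
    ring
  have hGpo : Nat.card G = h' * (p * o) := by
    rw [hGo, hh']
    ring
  have hfib : ∀ i : ZMod o, #{x : G | φ x = i} = m * s := by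
    intro i
    have h5 := RG.card_fib hφ i
    rw [hGo, mul_comm (m * s) o] at h5
    exact Nat.eq_of_mul_eq_mul_left (by omega) h5
  have hfib' : ∀ i : ZMod (p * o), #{x : G | ψ x = i} = h' := by
    intro i
    have h5 := RG.card_fib hψ i
    rw [hGpo, mul_comm h'] at h5
    exact Nat.eq_of_mul_eq_mul_left hpo h5
  have hdvdφ : ∀ x, φ x = 0 → o ∣ (ψ x).val := by
    intro x hx
    rw [hφψ, ← ZMod.natCast_zmod_val (ψ x), hrn] at hx
    exact (ZMod.natCast_eq_zero_iff _ _).1 hx
  have hro : r ((o : ℕ) : ZMod (p * o)) = 0 := by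
    rw [hrn, ZMod.natCast_self]
  -- the sum of the kernel
  set σ : G := ∑ x ∈ univ.filter (fun x => φ x = 0), x with hσ
  have hψσ : ψ σ = 0 := by
    by_cases hp2 : p = 2
    · subst hp2
      have h5 : ∀ x ∈ univ.filter (fun x : G => φ x = 0), ψ x =
          if ψ x = ((o : ℕ) : ZMod (2 * o)) then ((o : ℕ) : ZMod (2 * o)) else 0 := by
        intro x hx
        split_ifs with h6
        · exact h6
        · obtain ⟨u, hu⟩ := hdvdφ x (mem_filter.1 hx).2
          have h7 := ZMod.val_lt (ψ x)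
          have h8 : u < 2 := by
            by_contra hc
            push Not at hc
            have : o * 2 ≤ o * u := Nat.mul_le_mul_left _ hc
            omega
          have h9 : u ≠ 1 := by
            rintro rfl
            apply h6
            rw [← ZMod.natCast_zmod_val (ψ x), hu, mul_one]
          have h10 : u = 0 := by omega
          rw [h10, mul_zero] at hu
          exact (ZMod.val_eq_zero _).1 hu
      rw [hσ, map_sum, sum_congr rfl h5, ← sum_filter, sum_const, filter_filter]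
      have h6 : univ.filter (fun x : G => φ x = 0 ∧ ψ x = ((o : ℕ) : ZMod (2 * o))) =
          univ.filter (fun x : G => ψ x = ((o : ℕ) : ZMod (2 * o))) := by
        refine filter_congr fun x _ => ⟨fun h => h.2, fun h => ⟨?_, h⟩⟩
        rw [hφψ, h, hro]
      rw [h6, hfib']
      obtain ⟨s', hs'⟩ := h3 rfl
      have h7 : h' = 2 * (m * s') := by
        have h8 : 2 * h' = 2 * (2 * (m * s')) := by
          rw [← hh', hs']
          ring
        omega
      rw [h7, nsmul_eq_mul, ← Nat.cast_mul, ZMod.natCast_eq_zero_iff]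
      exact ⟨m * s', by ring⟩
    · refine psi_sum_odd hpp hp2 (by omega) ψ ?_ (hdvdφ σ ?_)
      · have h5 : ∑ x ∈ univ.filter (fun x : G => φ x = 0), (-x) = σ := by
          refine sum_bij (fun x _ => -x) ?_ (fun _ _ _ _ h => neg_injective h)
            (fun x hx => ⟨-x, ?_, neg_neg x⟩) fun _ _ => rfl
          · intro x hx
            rw [mem_filter] at hx ⊢
            exact ⟨mem_univ _, by rw [map_neg, hx.2, neg_zero]⟩
          · rw [mem_filter] at hx ⊢
            exact ⟨mem_univ _, by rw [map_neg, hx.2, neg_zero]⟩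
        rw [sum_neg_distrib, ← hσ] at h5
        nth_rw 1 [← h5]
        exact neg_add_cancel σ
      · rw [hσ, map_sum]
        exact sum_eq_zero fun x hx => (mem_filter.1 hx).2
  obtain ⟨g, hg⟩ := hψ 1
  have hφg : φ g = 1 := by
    rw [hφψ, hg, ← Nat.cast_one, hrn, Nat.cast_one]
  -- the rows
  have hrow : ∀ i : ℕ, ∑ x ∈ univ.filter (fun x => φ x = (i : ZMod o)), x =
      σ + (i * (m * s)) • g := by
    intro i
    have h5 : ∑ x ∈ univ.filter (fun x => φ x = (i : ZMod o)), x =
        ∑ x ∈ univ.filter (fun x => φ x = 0), (x + i • g) := by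
      symm
      refine sum_bij (fun x _ => x + i • g) ?_ (fun _ _ _ _ h => add_right_cancel h) ?_
        fun _ _ => rfl
      · intro x hx
        rw [mem_filter] at hx ⊢
        exact ⟨mem_univ _, by rw [map_add, hx.2, zero_add, map_nsmul, hφg, nsmul_one]⟩
      · intro x hx
        refine ⟨x - i • g, ?_, sub_add_cancel x _⟩
        rw [mem_filter] at hx ⊢
        exact ⟨mem_univ _, by rw [map_sub, hx.2, map_nsmul, hφg, nsmul_one, sub_self]⟩
    rw [h5, sum_add_distrib, ← hσ, sum_const, hfib, smul_smul, mul_comm (m * s) i]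
  have hLc : #{x : G | ψ x = 0} = h' := hfib' 0
  obtain ⟨R, hR, hRc⟩ := exists_subset_card_eq (s := univ.filter (fun x : G => ψ x = 0))
    (n := m * s - (m * k - c)) (by
      rw [hLc]
      rw [hh'] at hrow0 ⊢
      exact Nat.le_of_mul_le_mul_left hrow0 hpp.pos)
  set S : ℕ → Finset G := fun i => if i = 0 then R else
    univ.filter (fun x : G => φ x = (i : ZMod o)) with hS
  have hS0 : S 0 = R := by simp only [hS, if_true]
  have hSi : ∀ i, S (i + 1) = univ.filter (fun x : G => φ x = ((i + 1 : ℕ) : ZMod o)) := by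
    intro i
    simp only [hS, if_neg (Nat.succ_ne_zero i)]
  have hSc : ∀ i, #(S (i + 1)) = m * s := by
    intro i
    rw [hSi, hfib]
  have hSφ : ∀ i, ∀ x ∈ S i, φ x = (i : ZMod o) := by
    intro i x hx
    cases i with
    | zero =>
      rw [hS0] at hx
      have h5 := (mem_filter.1 (hR hx)).2
      rw [hφψ, h5, map_zero, Nat.cast_zero]
    | succ i =>
      rw [hSi] at hx
      exact (mem_filter.1 hx).2
  have hdiv' : (∑ i ∈ range b, (i + 1)) * (m * s) = K * o := by
    rw [← hdiv, sum_range_succ' (fun i => i), add_zero]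
  refine ⟨_, avoid_B φ S hSφ hb1 hbc hc2 ψ.ker 0 ?_ ?_ ?_ ?_⟩
  · intro x hx
    rw [hS0] at hx
    rw [sub_zero]
    exact AddMonoidHom.mem_ker.2 (mem_filter.1 (hR hx)).2
  · rw [sum_range_succ', sum_congr rfl fun i _ => hSc i, hS0, hRc, sum_const, card_range,
      smul_eq_mul]
    have h5 : (b + 1) * (m * s) = b * (m * s) + m * s := by ring
    omega
  · rw [sum_range_succ', sum_congr rfl fun i _ => by rw [hSc i], zero_mul, add_zero, ← sum_mul,
      hdiv']
    exact Dvd.intro_left K rfl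
  · rw [smul_zero, sub_zero, sum_range_succ', hS0, sum_congr rfl fun i _ => by rw [hSi i, hrow],
      sum_add_distrib, sum_const, card_range, ← sum_smul, ← sum_mul, hdiv']
    intro hcon
    have h5 := AddMonoidHom.mem_ker.1 hcon
    have h6 : ψ (∑ x ∈ R, x) = 0 := by
      rw [map_sum]
      exact sum_eq_zero fun x hx => (mem_filter.1 (hR hx)).2
    rw [map_add, map_add, h6, add_zero, map_nsmul, hψσ, smul_zero, zero_add, map_nsmul, hg,
      nsmul_one, ZMod.natCast_eq_zero_iff] at h5
    exact h2 (Nat.dvd_of_mul_dvd_mul_right (by omega) h5)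

end Pool.Agent.Lib.MPa7239a.X1
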