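import Pool.Agent.Lib.MP_a7239a_co.X1.DEG
import Pool.Agent.Lib.MP_a7239a_co.X1.LB2
import Pool.Agent.Lib.MP_a7239a_co.X1.LB3

/-!
# The lower bound (B) (module LB)
-/

set_option autoImplicit false

open Finset

namespace Pool.Agent.Lib.MPa7239a.X1

open Pool.Agent.Lib.MPa7239a.GC
open Pool.Agent.Lib.MPa7239a.RK

/-- MODULE LB: the lower bound (B) -/
theorem low_B {G : Type*} [AddCommGroup G] [Finite G] [DecidableEq G]
    {m t n s o b ρ k p c : ℕ} (N : Num m t n s o b ρ k p) (hexp : AddMonoid.exponent G = n)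
    (hG : Nat.card G = m * n) (hm : 100 * t ^ 2 ≤ m) (h : CB t s o b ρ k p c) :
    ∃ A : Finset G, #A = n + c ∧ ¬ Hit A n 0 := by
  obtain ⟨hbc, j, hj⟩ := h
  obtain ⟨j1, j2, j3⟩ := hj
  rcases Nat.lt_or_ge (j * t) (b * s * k) with hW | hW
  · exact low_B_pos N hexp hG hbc ⟨j1, j2, j3⟩ hW hm
  have hW' : j * t = b * s * k := le_antisymm j2 hW
  have ht : 1 ≤ t := by
    have h1 := N.tb
    have h2 := N.ρ1
    omega
  have hms : 1 * 3 ≤ m * s := Nat.mul_le_mul N.m0 N.s3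
  have hp : p.Prime := by
    rw [N.hp]
    exact Nat.minFac_prime (by omega)
  have hj2 : 2 ≤ j := by
    by_contra hcon
    have h1 : p * (j * t) ≤ p * (1 * t) := Nat.mul_le_mul_left _ (Nat.mul_le_mul_right _ (by omega))
    have h2 : 1 ≤ p * t := Nat.mul_pos hp.pos ht
    rw [one_mul] at h1
    omega
  by_cases hA : Adj t s b ρ k p (j - 2)
  · refine low_B_pos N hexp hG hbc hA ?_ hm
    have h1 : (j - 2) * t + 2 * t = j * t := by
      rw [← add_mul]
      congr 1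
      omega
    omega
  · have h1 : (j - 2) * t + 2 * t = j * t := by
      rw [← add_mul]
      congr 1
      omega
    have h2 : ¬ b * s * ((p - 2) * s + p * ρ) + 2 * (p * t) ≤ p * ((j - 2) * t) := fun h2 =>
      hA ⟨by omega, by omega, h2⟩
    have h3 : p * (j * t) = p * ((j - 2) * t) + 2 * (p * t) := by
      rw [← h1]
      ring
    obtain ⟨K, hK⟩ : ∃ K, 2 * K = s * b + j := ⟨(s * b + j) / 2, by omega⟩
    obtain ⟨d1, d2, d3⟩ := deg hp (fun q hq hqs => by
      rw [N.hp]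
      exact Nat.minFac_le_of_dvd hq.two_le (Dvd.dvd.mul_left hqs m)) N.b1 N.ρ1 N.k1 N.ks N.tb hW' hK
      j3 (by omega)
    exact low_B_zero N hexp hG hbc ⟨j1, j2, j3⟩ hW' hm hK d1 d2 d3

end Pool.Agent.Lib.MPa7239a.X1
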