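import Pool.Agent.Lib.MP_a7239a_co.X1.Defs

/-!
# X1, module LB1: the obstruction of (B), and the arithmetic of (B)
-/

set_option autoImplicit false

open Finset

namespace Pool.Agent.Lib.MPa7239a.X1

open Pool.Agent.Lib.MPa7239a.GC
open Pool.Agent.Lib.MPa7239a.RK

/-- **the obstruction of (B)** -/
theorem avoid_B {G : Type*} [AddCommGroup G] [DecidableEq G] {o : ℕ} (φ : G →+ ZMod o)
    {b c n : ℕ} (S : ℕ → Finset G) (hS : ∀ i, ∀ x ∈ S i, φ x = (i : ZMod o)) (hb : 1 ≤ b)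
    (hbo : b * c + 1 = o) (hc2 : 2 ≤ c) (L : AddSubgroup G) (x₀ : G)
    (h0 : ∀ x ∈ S 0, x - x₀ ∈ L) (hc : ∑ i ∈ range (b + 1), #(S i) = n + c)
    (hsum : o ∣ ∑ i ∈ range (b + 1), i * #(S i))
    (hσ : ∑ i ∈ range (b + 1), ∑ x ∈ S i, x - c • x₀ ∉ L) :
    #((range (b + 1)).biUnion S) = n + c ∧ ¬ Hit ((range (b + 1)).biUnion S) n 0 := by
  have hbo' : b < o := by nlinarith
  have hne : NeZero o := ⟨by omega⟩
  have hval : ∀ i ≤ b, ((i : ℕ) : ZMod o).val = i := fun i hi => ZMod.val_cast_of_lt (by omega)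
  have hdisj : ∀ i ∈ range (b + 1), ∀ j ∈ range (b + 1), i ≠ j → Disjoint (S i) (S j) := by
    intro i hi j hj hij
    rw [disjoint_left]
    intro x hx hx'
    have h1 := hS i x hx
    rw [hS j x hx'] at h1
    rw [mem_range] at hi hj
    have h2 := congrArg ZMod.val h1
    rw [hval j (by omega), hval i (by omega)] at h2
    exact hij h2.symm
  have hcard : #((range (b + 1)).biUnion S) = n + c := by rw [card_biUnion hdisj, hc]
  refine ⟨hcard, ?_⟩
  rintro ⟨T, hT, hTc, hTs⟩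
  set U : Finset G := (range (b + 1)).biUnion S with hU
  have hYc : #(U \ T) = c := by
    rw [card_sdiff_of_subset hT, hcard, hTc]
    omega
  have hUs : ∑ x ∈ U, x = ∑ i ∈ range (b + 1), ∑ x ∈ S i, x := by
    rw [hU, sum_biUnion hdisj]
  have hYs : ∑ x ∈ U \ T, x = ∑ i ∈ range (b + 1), ∑ x ∈ S i, x := by
    rw [← hUs, ← sum_sdiff hT, hTs, add_zero]
  have hφU : φ (∑ x ∈ U, x) = 0 := by
    rw [hUs, map_sum]
    have h1 : ∀ i ∈ range (b + 1), φ (∑ x ∈ S i, x) = ((i * #(S i) : ℕ) : ZMod o) := by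
      intro i _
      rw [map_sum, sum_congr rfl (fun x hx => hS i x hx), sum_const, nsmul_eq_mul, Nat.cast_mul,
        mul_comm]
    rw [sum_congr rfl h1, ← Nat.cast_sum]
    exact (ZMod.natCast_eq_zero_iff _ _).2 hsum
  have hle : ∀ x ∈ U, (φ x).val ≤ b ∧ x ∈ S (φ x).val := by
    intro x hx
    obtain ⟨i, hi, hxi⟩ := mem_biUnion.1 hx
    rw [mem_range] at hi
    rw [hS i x hxi, hval i (by omega)]
    exact ⟨by omega, hxi⟩
  have hd : o ∣ ∑ x ∈ U \ T, (φ x).val := by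
    rw [← ZMod.natCast_eq_zero_iff, Nat.cast_sum]
    have h1 : ∑ x ∈ U \ T, (((φ x).val : ℕ) : ZMod o) = φ (∑ x ∈ U \ T, x) := by
      rw [map_sum]
      exact sum_congr rfl fun x _ => ZMod.natCast_zmod_val _
    rw [h1, hYs, ← hUs, hφU]
  have hlt : ∑ x ∈ U \ T, (φ x).val < o := by
    have h1 := sum_le_card_nsmul (U \ T) (fun x => (φ x).val) b
      (fun x hx => (hle x (mem_sdiff.1 hx).1).1)
    rw [hYc, smul_eq_mul, mul_comm] at h1
    omega
  have hz : ∑ x ∈ U \ T, (φ x).val = 0 := Nat.eq_zero_of_dvd_of_lt hd hlt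
  have hz' : ∀ x ∈ U \ T, x - x₀ ∈ L := by
    intro x hx
    have h1 := (sum_eq_zero_iff.1 hz) x hx
    have h2 := (hle x (mem_sdiff.1 hx).1).2
    rw [h1] at h2
    exact h0 x h2
  apply hσ
  rw [← hYs, ← hYc, ← sum_const, ← sum_sub_distrib]
  exact L.sum_mem hz'

/-- the arithmetic of (B) -/
theorem arith_B {m t n s o b ρ k p c j : ℕ} (N : Num m t n s o b ρ k p) (hbc : b * c + 1 = o)
    (hj : Adj t s b ρ k p j) : p.Prime ∧ p ∣ m * s ∧ m ≤ c ∧ 2 * c + 1 ≤ m * k ∧
      j * o ≤ b * (m * k) ∧ b * (((p - 2) * s + p * ρ) * m) + 2 * (p * o) ≤ p * (j * o) := by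
  obtain ⟨nt, tb, ks, b1, ρ1, k1, s3, os, hp, m0⟩ := N
  obtain ⟨-, h1, h2⟩ := hj
  have hms : m * s ≠ 1 := by
    have : 1 * 3 ≤ m * s := Nat.mul_le_mul m0 s3
    omega
  have hpp : p.Prime := hp ▸ Nat.minFac_prime hms
  have hs0 : 0 < s := by omega
  have hom : o * s = t * m := os.trans nt
  have hjo : s * (j * o) = m * (j * t) := by
    calc s * (j * o) = j * (o * s) := by ring
      _ = m * (j * t) := by rw [hom]; ring
  have h3 : j * o ≤ b * (m * k) := by
    refine Nat.le_of_mul_le_mul_left ?_ hs0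
    rw [hjo]
    calc m * (j * t) ≤ m * (b * s * k) := Nat.mul_le_mul_left _ h1
      _ = s * (b * (m * k)) := by ring
  have h4 : b * (((p - 2) * s + p * ρ) * m) + 2 * (p * o) ≤ p * (j * o) := by
    refine Nat.le_of_mul_le_mul_left ?_ hs0
    calc s * (b * (((p - 2) * s + p * ρ) * m) + 2 * (p * o)) =
        m * (b * s * ((p - 2) * s + p * ρ)) + 2 * p * (o * s) := by ring
      _ = m * (b * s * ((p - 2) * s + p * ρ) + 2 * (p * t)) := by rw [hom]; ring
      _ ≤ m * (p * (j * t)) := Nat.mul_le_mul_left _ h2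
      _ = p * (s * (j * o)) := by rw [hjo]; ring
      _ = s * (p * (j * o)) := by ring
  refine ⟨hpp, hp ▸ Nat.minFac_dvd _, ?_, ?_, h3, h4⟩
  · have h5 : b * m < o := by
      refine Nat.lt_of_mul_lt_mul_left (a := s) ?_
      calc s * (b * m) < s * (b * m) + ρ * m := Nat.lt_add_of_pos_right (Nat.mul_pos ρ1 m0)
        _ = (b * s + ρ) * m := by ring
        _ = s * o := by rw [← tb, ← hom]; ring
    have h6 : b * m ≤ b * c := by omega
    exact Nat.le_of_mul_le_mul_left h6 b1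
  · have h5 : 2 * (p * o) ≤ p * (b * (m * k)) := by
      have h6 : p * (j * o) ≤ p * (b * (m * k)) := Nat.mul_le_mul_left _ h3
      omega
    have h7 : 2 * o ≤ b * (m * k) := by
      refine Nat.le_of_mul_le_mul_left ?_ hpp.pos
      calc p * (2 * o) = 2 * (p * o) := by ring
        _ ≤ _ := h5
    have h8 : b * (2 * c) < b * (m * k) := by
      have h9 : b * (2 * c) = 2 * (b * c) := by ring
      omega
    have h10 := Nat.lt_of_mul_lt_mul_left h8
    omega

/-- the parity in (B) -/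
theorem parity_B {m t n s o b ρ k p j : ℕ} (N : Num m t n s o b ρ k p)
    (hj : Adj t s b ρ k p j) (h : j * o ≤ b * (m * k)) :
    ∃ W K : ℕ, 2 * W + j * o = b * (m * k) ∧ 2 * K = s * b + j := by
  obtain ⟨nt, tb, ks, b1, ρ1, k1, s3, os, hp, m0⟩ := N
  obtain ⟨h1, -, -⟩ := hj
  obtain ⟨K, hK⟩ : ∃ K, 2 * K = s * b + j := ⟨(s * b + j) / 2, by omega⟩
  obtain ⟨e, he⟩ : Even (b * (b + 1)) := Nat.even_mul_succ_self b
  have hbn : (b + 1) * (m * s) = n + m * k := by
    rw [nt, tb, ← ks]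
    ring
  have h2 : b * (m * k) + b * n = 2 * (e * (m * s)) := by
    calc b * (m * k) + b * n = b * (n + m * k) := by ring
      _ = b * (b + 1) * (m * s) := by rw [← hbn]; ring
      _ = _ := by rw [he]; ring
  have h3 : j * o + b * n = 2 * (K * o) := by
    calc j * o + b * n = (s * b + j) * o := by rw [← os]; ring
      _ = _ := by rw [← hK]; ring
  exact ⟨e * (m * s) - K * o, K, by omega, hK⟩

/-- the sum of the classes of the elements -/
theorem div_B {m t n s o b ρ k p j W K : ℕ} (N : Num m t n s o b ρ k p)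
    (hW : 2 * W + j * o = b * (m * k)) (hK : 2 * K = s * b + j) :
    (∑ i ∈ range (b + 1), i) * (m * s) = K * o + W := by
  obtain ⟨nt, tb, ks, b1, ρ1, k1, s3, os, hp, m0⟩ := N
  have hbn : (b + 1) * (m * s) = n + m * k := by
    rw [nt, tb, ← ks]
    ring
  have h1 := sum_range_id_mul_two (b + 1)
  rw [Nat.add_sub_cancel] at h1
  have h2 : 2 * ((∑ i ∈ range (b + 1), i) * (m * s)) = 2 * (K * o + W) := by
    calc 2 * ((∑ i ∈ range (b + 1), i) * (m * s)) = ((∑ i ∈ range (b + 1), i) * 2) * (m * s) := by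
          ring
      _ = b * ((b + 1) * (m * s)) := by rw [h1]; ring
      _ = b * n + b * (m * k) := by rw [hbn]; ring
      _ = b * (o * s) + (2 * W + j * o) := by rw [os, hW]
      _ = (s * b + j) * o + 2 * W := by ring
      _ = 2 * (K * o + W) := by rw [← hK]; ring
  omega

/-- the size of row `0` -/
theorem row_B {m t n s o b ρ k p c j W f₀ : ℕ} (N : Num m t n s o b ρ k p) (hbc : b * c + 1 = o)
    (hj : Adj t s b ρ k p j) (hW : 2 * W + j * o = b * (m * k)) (hf : f₀ ≤ m * s)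
    (h : b * (m * k - c) + 1 ≤ b * f₀ + W + b) : p * (m * s - f₀) ≤ m * s := by
  obtain ⟨hpp, hdvd, hmc, hck, h3, h4⟩ := arith_B N hbc hj
  obtain ⟨nt, tb, ks, b1, ρ1, k1, s3, os, hp, m0⟩ := N
  obtain ⟨h', hh'⟩ := hdvd
  rw [hh']
  refine Nat.mul_le_mul_left p ?_
  by_contra hcon
  obtain ⟨q, rfl⟩ : ∃ q, p = q + 2 := ⟨p - 2, by have := hpp.two_le; omega⟩
  rw [Nat.add_sub_cancel] at h4
  obtain ⟨D, hD⟩ : ∃ D, D + c = m * k := ⟨m * k - c, by omega⟩
  have hD' : m * k - c = D := by omega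
  rw [hD'] at h
  have e1 : f₀ + 1 ≤ (q + 1) * h' := by
    have h5 : (q + 2) * h' = (q + 1) * h' + h' := by ring
    omega
  have e2 : b * f₀ + b ≤ b * ((q + 1) * h') := by
    have := Nat.mul_le_mul_left b e1
    linarith [this]
  have e3 : b * D + 1 ≤ b * ((q + 1) * h') + W := by omega
  have e4 : 2 * (q + 2) * (b * D + 1) ≤ 2 * (q + 2) * (b * ((q + 1) * h') + W) :=
    Nat.mul_le_mul_left _ e3
  have e5 : (m : ℤ) * s = (q + 2) * h' := by exact_mod_cast hh'
  have e6 : (D : ℤ) + c = m * k := by exact_mod_cast hD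
  have e7 : (b : ℤ) * c + 1 = o := by exact_mod_cast hbc
  have e8 : (2 : ℤ) * W + j * o = b * (m * k) := by exact_mod_cast hW
  have e9 : (k : ℤ) + ρ = s := by exact_mod_cast ks
  zify at h4 e4
  have e10 : (2 : ℤ) * (q + 2) * (b * D + 1) = 2 * (q + 2) * (b * (m * k) - (o - 1) + 1) := by
    have : (D : ℤ) = m * k - c := by linarith
    rw [this, ← e7]
    ring
  have e11 : (2 : ℤ) * (q + 2) * (b * ((q + 1) * h') + W) =
      2 * b * (q + 1) * (m * s) + (q + 2) * (b * (m * k) - j * o) := by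
    rw [← e8, e5]
    ring
  rw [e10, e11] at e4
  rw [← e9] at e4 h4
  have e12 : (0 : ℤ) ≤ q := Int.natCast_nonneg q
  linarith [e4, h4, e12]

end Pool.Agent.Lib.MPa7239a.X1
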