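import Pool.Agent.Lib.MP_a7239a_co.X1.UPX
import Pool.Agent.Lib.MP_a7239a_co.X1.LA
import Pool.Agent.Lib.MP_a7239a_co.X1.LB
import Pool.Agent.Lib.MP_a7239a_co.RG.LOWG
import Pool.Agent.Lib.MP_a7239a_co.RG.CYCG
import Pool.Agent.Lib.MP_a7239a_co.RG.MAINB

/-!
# The exact bounds for `t ≥ 3` (module MX)
-/

set_option autoImplicit false

open Finset

namespace Pool.Agent.Lib.MPa7239a.X1

open Pool.Agent.Lib.MPa7239a.GC
open Pool.Agent.Lib.MPa7239a.RK
open Pool.Agent.Lib.MPa7239a.RT (core_div3 core_not_div3 exists_core3)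
open Pool.Agent.Lib.MPa7239a.RG (core_big)

/-- the numbers of a divisor -/
theorem num_of {m t s : ℕ} (hm : 1 ≤ m) (h : s ∣ t * m) (h3 : 3 ≤ s) (hst : s < t)
    (hnd : ¬ s ∣ t) :
    Num m t (t * m) s (t * m / s) (t / s) (t % s) (s - t % s) (m * s).minFac := by
  have h1 := Nat.mod_lt t (show 0 < s by omega)
  refine ⟨rfl, ?_, by omega, ?_, ?_, by omega, h3, ?_, rfl, hm⟩
  · rw [mul_comm]
    exact (Nat.div_add_mod t s).symm
  · exact Nat.div_pos hst.le (by omega)
  · rcases Nat.eq_zero_or_pos (t % s) with h2 | h2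
    · exact absurd (Nat.dvd_of_mod_eq_zero h2) hnd
    · exact h2
  · exact Nat.div_mul_cancel h

/-- the conditions for the divisor `s` -/
def CS (m t s c : ℕ) : Prop :=
  CA m s (t * m / s) (t / s) (s - t % s) c ∨
    CB t s (t * m / s) (t / s) (t % s) (s - t % s) (m * s).minFac c

section

variable {G : Type*} [AddCommGroup G] [Fintype G] [DecidableEq G] {n m t c : ℕ}

/-- the upper bound -/
theorem upper_X (hexp : ∀ x : G, n • x = 0) (hG : Nat.card G = m * n) (hn : n = t * m)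
    (ht : 2 ≤ t) (hm : 10 ^ 40 * (t + 1) ^ 16 * (Nat.log 2 n + 1) ^ 12 ≤ m)
    {A : Finset G} (hA : #A = n + c) (hmc : m ≤ c) (hno : ¬ Hit A n 0) :
    (c = m ∧ Odd t ∧ #{x : G | x + x = 0} = 4) ∨
      ∃ s, s ∣ t * m ∧ 3 ≤ s ∧ s < t ∧ ¬ s ∣ t ∧ CS m t s c := by
  obtain ⟨ℓ, loss, E, L, N, hamb, hFF⟩ := exists_core3 hexp hG hn ht hm
  subst hn
  obtain ⟨H, e, q₀, S, z, s, o, k, t', u, v, h⟩ :=
    hamb A c hA hmc (core_big N hamb hA hno).le hno
  by_cases hst : s ∣ t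
  · left
    by_contra hcon
    refine hno (core_div3 N hexp hG hFF h hmc hst ?_)
    by_contra h1
    push Not at h1
    obtain ⟨h2, h3, h4⟩ := h1
    exact hcon ⟨by omega, Nat.not_even_iff_odd.1 h3, h4⟩
  · right
    obtain ⟨b, ρ, q₁, z', h1, h2, h4, h3, hlt, hd, hR, hR3, hm2⟩ :=
      core_not_div3 N hexp hFF h hmc hst hno
    have hm1 : 1 ≤ m := by
      refine le_trans ?_ hm
      exact Nat.mul_pos (Nat.mul_pos (by norm_num) (Nat.pow_pos (by omega)))
        (Nat.pow_pos (by omega))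
    have hN := num_of hm1 hd h3 hlt hst
    have hdiv : t / s = b := by
      rw [h1, mul_comm b s, Nat.mul_add_div (by omega), Nat.div_eq_of_lt h4, add_zero]
    have hmod : t % s = ρ := by
      rw [h1, mul_comm b s, Nat.mul_add_mod, Nat.mod_eq_of_lt h4]
    have ho : t * m / s = o := by
      rw [← h.os, Nat.mul_div_cancel _ (by omega)]
    rw [hdiv, hmod, ho] at hN
    refine ⟨s, hd, h3, hlt, hst, ?_⟩
    unfold CS
    rw [hdiv, hmod, ho]
    have hps : (m * s).minFac ≤ s := Nat.minFac_le_of_dvd (by omega) (Dvd.intro_left m rfl)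
    have hms : m * s ≤ t * m := by
      rw [mul_comm t m]
      exact Nat.mul_le_mul_left m hlt.le
    have hbt : b ≤ t := by
      rw [h1]
      have : b * 1 ≤ b * s := Nat.mul_le_mul_left b (by omega)
      omega
    refine up hN hR hR3 hexp (hFF H) hm2 (l := Nat.log 2 (t * m) + 1) ?_ ?_ hno
    · exact hms.trans (Nat.lt_pow_succ_log_self (by norm_num) _).le
    · refine lt_of_lt_of_le ?_ hm
      obtain ⟨l, hl⟩ : ∃ l, l = Nat.log 2 (t * m) + 1 := ⟨_, rfl⟩
      rw [← hl]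
      have hl1 : 1 ≤ l := by omega
      have hpt : (m * s).minFac ≤ t := hps.trans hlt.le
      have a1 : b * (16 * (m * s).minFac * l + 1) ≤ t * (16 * t * l + 1) :=
        Nat.mul_le_mul hbt (Nat.add_le_add_right
          (Nat.mul_le_mul_right _ (Nat.mul_le_mul_left _ hpt)) _)
      have a2 : 4 * ((m * s).minFac * s * (1 + b * (16 * (m * s).minFac * l + 1))) ≤
          4 * (t * t * (1 + t * (16 * t * l + 1))) :=
        Nat.mul_le_mul_left _ (Nat.mul_le_mul (Nat.mul_le_mul hpt hlt.le)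
          (Nat.add_le_add_left a1 _))
      have a3 : 1 + t * (16 * t * l + 1) ≤ 18 * (t * t * l) := by
        have b1 : 1 ≤ t * t * l := Nat.mul_pos (Nat.mul_pos (by omega) (by omega)) hl1
        have b2 : t * 1 ≤ t * (t * l) := Nat.mul_le_mul_left t (Nat.mul_pos (by omega) hl1)
        have b3 : t * (16 * t * l + 1) = 16 * (t * t * l) + t := by ring
        have b4 : t * (t * l) = t * t * l := by ring
        omega
      have a4 : 4 * (t * t * (18 * (t * t * l))) = 72 * (t ^ 4 * l) := by ring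
      have a5 : t ^ 4 ≤ (t + 1) ^ 16 := by
        calc t ^ 4 ≤ (t + 1) ^ 4 := Nat.pow_le_pow_left (by omega) 4
          _ ≤ (t + 1) ^ 16 := Nat.pow_le_pow_right (by omega) (by norm_num)
      have a6 : l ≤ l ^ 12 := Nat.le_self_pow (by norm_num) l
      have a7 : t ^ 4 * l ≤ (t + 1) ^ 16 * l ^ 12 := Nat.mul_le_mul a5 a6
      have a8 : 1 ≤ (t + 1) ^ 16 * l ^ 12 :=
        Nat.mul_pos (Nat.pow_pos (by omega)) (Nat.pow_pos hl1)
      have a9 : 4 * (t * t * (1 + t * (16 * t * l + 1))) ≤ 4 * (t * t * (18 * (t * t * l))) :=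
        Nat.mul_le_mul_left _ (Nat.mul_le_mul_left _ a3)
      have a10 : 72 * (t ^ 4 * l) < 10 ^ 40 * ((t + 1) ^ 16 * l ^ 12) := by omega
      calc 4 * ((m * s).minFac * s * (1 + b * (16 * (m * s).minFac * l + 1)))
          ≤ 72 * (t ^ 4 * l) := (a2.trans a9).trans a4.le
        _ < 10 ^ 40 * ((t + 1) ^ 16 * l ^ 12) := a10
        _ = 10 ^ 40 * (t + 1) ^ 16 * l ^ 12 := (mul_assoc _ _ _).symm

/-- the lower bound for a divisor `s` -/
theorem lower_X (hexp : AddMonoid.exponent G = n) (hG : Nat.card G = m * n) (hn : n = t * m)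
    (hm : 100 * t ^ 2 ≤ m) (ht : 1 ≤ t) {s : ℕ} (hs : s ∣ t * m) (h3 : 3 ≤ s) (hst : s < t)
    (hnd : ¬ s ∣ t) (hmc : m ≤ c) (h : CS m t s c) :
    ∃ A : Finset G, #A = n + c ∧ ¬ Hit A n 0 := by
  have hm1 : 1 ≤ m := by
    have : 1 ≤ t ^ 2 := Nat.pow_pos ht
    omega
  have hN := num_of hm1 hs h3 hst hnd
  rw [← hn] at hN
  unfold CS at h
  rcases h with h | h
  · rw [← hn] at h
    obtain ⟨A, hA, hA'⟩ := low_A hN hm hmc h
    subst hn
    have : NeZero m := ⟨by omega⟩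
    have : NeZero (t * m) := ⟨by
      have := Nat.mul_pos ht hm1
      omega⟩
    obtain ⟨B, hB, o, φ, ho, hφ, hT⟩ := Pool.Agent.Lib.MPa7239a.RG.cyc_transport (G' := G)
      (by rw [Pool.Agent.Lib.MPa7239a.RG.card_model, hG])
      (Pool.Agent.Lib.MPa7239a.RG.exponent_model (Dvd.intro_left t rfl)) hexp hA'
    refine ⟨B, by rw [hB, hA], ?_⟩
    rintro ⟨T, hTB, hc, hs'⟩
    exact hT T hTB hc (by rw [hs', map_zero])
  · rw [← hn] at h
    exact low_B hN hexp hG hm h

end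

end Pool.Agent.Lib.MPa7239a.X1
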