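import Pool.Agent.Lib.MP_a7239a_co.X1.Defs
import Pool.Agent.Lib.MP_a7239a_co.RK.ENDR

/-!
# X1, module PARTS: the three parts of the sum over `A`
-/

set_option autoImplicit false

open Finset

namespace Pool.Agent.Lib.MPa7239a.X1

open Pool.Agent.Lib.MPa7239a.GC
open Pool.Agent.Lib.MPa7239a.RK

/-- row `0` and the rows `1, ..., b` -/
theorem split_mid {G : Type*} (A : Finset G) (z : G → ℤ) (b : ℕ) :
    #(A.filter (fun x => 0 ≤ z x ∧ z x ≤ b)) =
      #(row A z 0) + #(A.filter (fun x => 1 ≤ z x ∧ z x ≤ b)) ∧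
    ∑ x ∈ A.filter (fun x => 0 ≤ z x ∧ z x ≤ b), z x =
      ∑ x ∈ A.filter (fun x => 1 ≤ z x ∧ z x ≤ b), z x := by
  classical
  have h1 : A.filter (fun x => 0 ≤ z x ∧ z x ≤ b) =
      row A z 0 ∪ A.filter (fun x => 1 ≤ z x ∧ z x ≤ b) := by
    ext x
    rw [mem_union, mem_row, mem_filter, mem_filter]
    constructor
    · rintro ⟨hx, h2, h3⟩
      by_cases h4 : z x = 0
      · exact Or.inl ⟨hx, h4⟩
      · exact Or.inr ⟨hx, by omega, h3⟩
    · rintro (⟨hx, h2⟩ | ⟨hx, h2, h3⟩)
      · exact ⟨hx, by omega, by omega⟩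
      · exact ⟨hx, by omega, h3⟩
  have h2 : Disjoint (row A z 0) (A.filter (fun x => 1 ≤ z x ∧ z x ≤ b)) := by
    rw [Finset.disjoint_left]
    intro x h3 h4
    rw [mem_row] at h3
    rw [mem_filter] at h4
    omega
  rw [h1, card_union_of_disjoint h2, sum_union h2]
  refine ⟨rfl, ?_⟩
  rw [sum_eq_zero fun x hx => (mem_row.1 hx).2, zero_add]

/-- MODULE PARTS -/
theorem parts {G : Type*} [AddCommGroup G] [Finite G] [DecidableEq G] {H : AddSubgroup G}
    {e q₀ : G} {A : Finset G} {z : G → ℤ} {m n c s o b ρ E k : ℕ}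
    (h : StrR H e q₀ A z m n c s o b ρ E) (hk : k + ρ = s) :
    ∃ s₀ s₁ s₂ : ℤ, s₀ = ∑ x ∈ low A z 0, z x ∧ s₂ = ∑ x ∈ high A z b, z x ∧
      ∑ x ∈ A, z x = s₀ + s₁ + s₂ ∧
      Part m n b k c #(low A z 0) #(high A z b) (m * s - #(row A z 0)) s₀ s₁ s₂ := by
  have hb := h.hb
  have hn := h.hn
  have hmk : m * k + m * ρ = m * s := by rw [← hk, mul_add]
  have hnk : n + m * k = (b + 1) * (m * s) := by
    rw [hn, add_mul, one_mul]
    omega
  -- the counts
  have hrow0 : #(row A z 0) ≤ m * s := by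
    rw [← h.cardH]
    exact card_row_le h.lift 0
  have hge := row_ge h.lift (b := b) (i := 0) le_rfl (by omega)
  rw [h.card, h.cardH] at hge
  obtain ⟨hsp1, hsp2⟩ := split_mid A z b
  have hcard : #A = #(low A z 0) + #(A.filter (fun x => 0 ≤ z x ∧ z x ≤ b)) +
      #(high A z b) := by
    have h1 := card_filter_add_card_filter_not (s := A) (fun x => 0 ≤ z x ∧ z x ≤ b)
    have h2 : A.filter (fun x => ¬ (0 ≤ z x ∧ z x ≤ b)) = out A z 0 b 1 := by
      rw [out]
      refine filter_congr fun x _ => ?_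
      push_cast
      constructor
      · intro h10
        by_cases h11 : 0 ≤ z x
        · exact Or.inr (by
            by_contra h12
            exact h10 ⟨h11, by omega⟩)
        · exact Or.inl (by omega)
      · rintro (h10 | h10) ⟨h11, h12⟩
        · omega
        · omega
    rw [h2, card_out A z (by omega)] at h1
    omega
  rw [h.card] at hcard
  -- the sum over the middle rows
  have hmid := sum_mid_le h.lift b
  rw [h.cardH] at hmid
  obtain ⟨b', hb'⟩ : ∃ b', b = b' + 1 := ⟨b - 1, by omega⟩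
  have hmid' := sum_mid_le (z := fun x => (b : ℤ) - z x) (lift_rev h.lift b) b'
  have hfil : A.filter (fun x => 0 ≤ (b : ℤ) - z x ∧ (b : ℤ) - z x ≤ b') =
      A.filter (fun x => 1 ≤ z x ∧ z x ≤ b) := by
    refine filter_congr fun x _ => ?_
    constructor
    · rintro ⟨h1, h2⟩
      omega
    · rintro ⟨h1, h2⟩
      omega
  rw [hfil, sum_rev, h.cardH] at hmid'
  refine ⟨∑ x ∈ low A z 0, z x, ∑ x ∈ A.filter (fun x => 0 ≤ z x ∧ z x ≤ b), z x,
    ∑ x ∈ high A z b, z x, rfl, rfl, sum_three A z b, sum_low_le_neg_card, card_le_sum_high b,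
    ?_, ?_, ?_⟩
  · omega
  · have h1 : ((m * s : ℕ) : ℤ) * (b * (b + 1)) = b * n + b * (m * k) := by
      have h2 : (n : ℤ) + m * k = (b + 1) * (m * s) := by exact_mod_cast hnk
      push_cast
      linear_combination (-(b : ℤ)) * h2
    rw [← h1]
    exact hmid
  · rw [← hsp2] at hmid'
    generalize ∑ x ∈ A.filter (fun x => 0 ≤ z x ∧ z x ≤ b), z x = s₁ at hmid' ⊢
    generalize #(A.filter (fun x => 0 ≤ z x ∧ z x ≤ b)) = M at hcard hsp1
    generalize #(A.filter (fun x => 1 ≤ z x ∧ z x ≤ b)) = M₁ at hmid' hsp1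
    generalize #(low A z 0) = a at *
    generalize #(high A z b) = a' at *
    generalize #(row A z 0) = R at *
    have h2 : (n : ℤ) + m * k = (b + 1) * (m * s) := by exact_mod_cast hnk
    have h3 : ((m * s - R : ℕ) : ℤ) = m * s - R := by
      rw [Nat.cast_sub hrow0]
      push_cast
      rfl
    have h4 : (n : ℤ) + c = a + M + a' := by exact_mod_cast hcard
    have h5 : (M : ℤ) = R + M₁ := by exact_mod_cast hsp1
    have h6 : (b : ℤ) = b' + 1 := by exact_mod_cast hb'
    rw [h3]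
    push_cast at hmid'
    have h7 : (M₁ : ℤ) = n + c - a - a' - R := by linarith
    have h8 : (b' : ℤ) = b - 1 := by linarith
    rw [h7, h8] at hmid'
    have h9 : (n : ℤ) = (b + 1) * (m * s) - m * k := by linarith
    rw [h9] at hmid' ⊢
    nlinarith
end Pool.Agent.Lib.MPa7239a.X1
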