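import Pool.Agent.Lib.MP_a7239a_co.GC.Defs

/-!
# Lemma V (X1): sums of `d` elements of a subset of a coset of `H` with more than `|H| / p` elements
-/

set_option autoImplicit false

open Finset

namespace Pool.Agent.Lib.MPa7239a.X1

open Pool.Agent.Lib.MPa7239a.GC

namespace V

variable {K : Type*} [AddCommGroup K] [DecidableEq K]

/-- the differences of the elements of `X` -/
def Df (X : Finset K) : Finset K := (X ×ˢ X).image fun q => q.2 - q.1

theorem mem_Df {X : Finset K} {g : K} : g ∈ Df X ↔ ∃ x ∈ X, ∃ y ∈ X, y - x = g := by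
  rw [Df, mem_image]
  constructor
  · rintro ⟨⟨a, b⟩, hp, rfl⟩
    rw [mem_product] at hp
    exact ⟨a, hp.1, b, hp.2, rfl⟩
  · rintro ⟨a, ha, b, hb, rfl⟩
    exact ⟨(a, b), mem_product.2 ⟨ha, hb⟩, rfl⟩

theorem zero_mem_Df {X : Finset K} (hX : X.Nonempty) : (0 : K) ∈ Df X := by
  obtain ⟨a, ha⟩ := hX
  exact mem_Df.2 ⟨a, ha, a, ha, sub_self a⟩

theorem neg_mem_Df {X : Finset K} : ∀ x ∈ Df X, -x ∈ Df X := by
  intro x hx
  obtain ⟨a, ha, b, hb, rfl⟩ := mem_Df.1 hx
  exact mem_Df.2 ⟨b, hb, a, ha, by abel⟩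

omit [DecidableEq K] in
theorem ball_stable {D : Finset K} {i : ℕ} (h : ball D (i + 1) ⊆ ball D i) (k : ℕ) :
    ball D (i + k) ⊆ ball D i := by
  induction k with
  | zero => exact subset_rfl
  | succ k ih =>
    intro x hx
    rw [← add_assoc] at hx
    obtain ⟨y, hy, d, hd, rfl⟩ := mem_ball_succ.1 hx
    exact h (mem_ball_succ.2 ⟨y, ih hy, d, hd, rfl⟩)

omit [AddCommGroup K] [DecidableEq K] in
theorem nonempty_of_lt {n p : ℕ} {X : Finset K} (hX : n < p * #X) : X.Nonempty := by
  rw [← card_pos]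
  by_contra h0
  have h1 : #X = 0 := by omega
  rw [h1, mul_zero] at hX
  omega

omit [DecidableEq K] in
/-- a subset of a coset of `L` has at most `|L|` elements -/
theorem card_le_coset [Finite K] (L : AddSubgroup K) {B : Finset K} (y : K)
    (hB : ∀ x ∈ B, x - y ∈ L) : #B ≤ Nat.card L := by
  classical
  have : Fintype L := Fintype.ofFinite L
  rw [Nat.card_eq_fintype_card, ← card_univ]
  refine card_le_card_of_injOn (fun x => if h : x - y ∈ L then (⟨x - y, h⟩ : L) else 0)
    (fun _ _ => mem_coe.2 (mem_univ _)) ?_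
  intro a ha b hb hab
  simp only [dif_pos (hB a ha), dif_pos (hB b hb), Subtype.mk.injEq] at hab
  exact sub_left_inj.1 hab

/-- if the iterated difference set is stable, it is everything -/
theorem ball_univ [Finite K] {p : ℕ} (hp : p = (Nat.card K).minFac) {X : Finset K}
    (hX : Nat.card K < p * #X) {i : ℕ} (h : ball (Df X) (i + 1) ⊆ ball (Df X) i) (g : K) :
    g ∈ ball (Df X) i := by
  have hne : X.Nonempty := nonempty_of_lt hX
  have h0 := zero_mem_Df hne
  let L : AddSubgroup K :=
    { carrier := {x | x ∈ ball (Df X) i}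
      add_mem' := fun {a b} ha hb => ball_stable h i (ball_add ha hb)
      zero_mem' := zero_mem_ball h0 i
      neg_mem' := fun {a} ha => ball_neg neg_mem_Df ha }
  have hD : ∀ x ∈ Df X, x ∈ L := by
    intro x hx
    exact h (ball_mono h0 (by omega) (mem_ball_one.2 hx))
  have hXL : #X ≤ Nat.card L := by
    obtain ⟨a, ha⟩ := hne
    exact card_le_coset L a fun x hx => hD _ (mem_Df.2 ⟨a, ha, x, hx, rfl⟩)
  by_contra hg
  have hLt : L ≠ ⊤ := by
    intro h1
    have : g ∈ L := by rw [h1]; trivial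
    exact hg this
  have hidx : L.index ≠ 1 := fun h1 => hLt (AddSubgroup.index_eq_one.1 h1)
  have hpos : L.index ≠ 0 := AddSubgroup.index_ne_zero_of_finite
  have hle : p ≤ L.index := by
    rw [hp]
    exact Nat.minFac_le_of_dvd (by omega) (AddSubgroup.index_dvd_card L)
  have hmul := L.card_mul_index
  have : p * #X ≤ Nat.card K := by
    rw [← hmul, mul_comm]
    exact Nat.mul_le_mul hXL hle
  omega

/-- (V1) every element is a sum of `2 p` differences -/
theorem mem_ball_two [Finite K] {p : ℕ} (hp : p = (Nat.card K).minFac) {X : Finset K}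
    (hX : Nat.card K < p * #X) (g : K) : g ∈ ball (Df X) (2 * p) := by
  have hne : X.Nonempty := nonempty_of_lt hX
  have h0 := zero_mem_Df hne
  by_contra hg
  have hstep : ∀ i, i < 2 * p → ∃ v, v ∈ ball (Df X) (i + 1) ∧ v ∉ ball (Df X) i := by
    intro i hi
    by_contra hcon
    push Not at hcon
    exact hg (ball_mono h0 hi.le (ball_univ hp hX (fun x hx => hcon x hx) g))
  have hv : ∀ i, ∃ v, i < p → (v ∈ ball (Df X) (2 * i) ∧ (0 < i → v ∉ ball (Df X) (2 * i - 1))) := by
    intro i
    by_cases hi : i < p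
    · rcases Nat.eq_zero_or_pos i with h | h
      · refine ⟨0, fun _ => ⟨zero_mem_ball h0 _, fun h' => by omega⟩⟩
      · obtain ⟨v, hv1, hv2⟩ := hstep (2 * i - 1) (by omega)
        refine ⟨v, fun _ => ⟨?_, fun _ => hv2⟩⟩
        have : 2 * i - 1 + 1 = 2 * i := by omega
        rwa [this] at hv1
    · exact ⟨0, fun h => absurd h hi⟩
  choose v hv using hv
  have hdis : ∀ j < p, ∀ i < p, j < i →
      Disjoint (X.image fun x => x + v j) (X.image fun x => x + v i) := by
    intro j hj i hi hji
    rw [disjoint_left]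
    intro w hw hw'
    obtain ⟨x, hx, rfl⟩ := mem_image.1 hw
    obtain ⟨x', hx', h⟩ := mem_image.1 hw'
    refine (hv i hi).2 (by omega) ?_
    have h2 : v i = v j + (x - x') := by
      have : x' + v i - x' = x + v j - x' := by rw [h]
      rw [add_sub_cancel_left] at this
      rw [this]
      abel
    rw [h2]
    refine ball_mono h0 (show 2 * j + 1 ≤ 2 * i - 1 by omega) ?_
    exact mem_ball_succ.2 ⟨v j, (hv j hj).1, x - x', mem_Df.2 ⟨x', hx', x, hx, rfl⟩, rfl⟩
  have hcard : #((range p).biUnion fun i => X.image fun x => x + v i) = p * #X := by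
    rw [card_biUnion]
    · rw [sum_congr rfl (g := fun _ => #X) (fun i _ => card_image_of_injective _
        (add_left_injective _)), sum_const, card_range, smul_eq_mul]
    · intro i hi j hj hij
      rw [mem_coe, mem_range] at hi hj
      rcases lt_or_gt_of_ne hij with h | h
      · exact hdis i hi j hj h
      · exact (hdis j hj i hi h).symm
  have hle : #((range p).biUnion fun i => X.image fun x => x + v i) ≤ Nat.card K := by
    have : Fintype K := Fintype.ofFinite K
    rw [Nat.card_eq_fintype_card]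
    exact card_le_univ _
  omega

/-- the number of new elements of a translate -/
def f (S : Finset K) (g : K) : ℕ := #((S.image fun x => x + g) \ S)

theorem f_add (S : Finset K) (g g' : K) : f S (g + g') ≤ f S g + f S g' := by
  have h1 : #(((S.image fun x => x + g) \ S).image fun x => x + g') = f S g :=
    card_image_of_injective _ (add_left_injective _)
  rw [← h1, f, f]
  refine (card_le_card ?_).trans (card_union_le _ _)
  intro w hw
  rw [mem_sdiff] at hw
  obtain ⟨hw1, hw2⟩ := hw
  obtain ⟨x, hx, rfl⟩ := mem_image.1 hw1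
  rw [mem_union]
  by_cases h : x + g ∈ S
  · right
    rw [mem_sdiff]
    refine ⟨mem_image.2 ⟨x + g, h, by abel⟩, hw2⟩
  · left
    refine mem_image.2 ⟨x + g, ?_, by abel⟩
    rw [mem_sdiff]
    exact ⟨mem_image.2 ⟨x, hx, rfl⟩, h⟩

theorem f_zero (S : Finset K) : f S 0 = 0 := by
  rw [f, card_eq_zero, sdiff_eq_empty_iff_subset]
  intro w hw
  obtain ⟨x, hx, rfl⟩ := mem_image.1 hw
  rwa [add_zero]

theorem f_eq (S : Finset K) (g : K) : f S g = ∑ x ∈ S, if x + g ∈ S then 0 else 1 := by
  have h1 : (S.image fun x => x + g) \ S = (S.filter fun x => x + g ∉ S).image fun x => x + g := by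
    ext w
    rw [mem_sdiff, mem_image, mem_image]
    constructor
    · rintro ⟨⟨x, hx, rfl⟩, h⟩
      exact ⟨x, mem_filter.2 ⟨hx, h⟩, rfl⟩
    · rintro ⟨x, hx, rfl⟩
      rw [mem_filter] at hx
      exact ⟨⟨x, hx.1, rfl⟩, hx.2⟩
  rw [f, h1, card_image_of_injective _ (add_left_injective _), card_filter]
  refine sum_congr rfl fun x _ => ?_
  by_cases h : x + g ∈ S
  · rw [if_neg (not_not.2 h), if_pos h]
  · rw [if_pos h, if_neg h]

theorem sum_f [Fintype K] (S : Finset K) :
    ∑ g : K, f S g = #S * (Fintype.card K - #S) := by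
  simp_rw [f_eq]
  rw [sum_comm]
  have : ∀ x ∈ S, ∑ g : K, (if x + g ∈ S then 0 else 1) = Fintype.card K - #S := by
    intro x _
    have h1 : ∑ g : K, (if x + g ∈ S then 0 else 1) = ∑ g : K, (if g ∈ S then 0 else 1) :=
      Fintype.sum_equiv (Equiv.addLeft x) _ _ (fun g => rfl)
    rw [h1]
    have h2 : ∀ g : K, (if g ∈ S then 0 else 1) = (if g ∉ S then 1 else 0) := by
      intro g
      by_cases h : g ∈ S
      · rw [if_pos h, if_neg (not_not.2 h)]
      · rw [if_neg h, if_pos h]
    rw [sum_congr rfl fun g _ => h2 g, ← card_filter]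
    have h3 : (univ.filter fun g : K => g ∉ S) = Sᶜ := by
      ext g
      simp
    rw [h3, card_compl]
  rw [sum_congr rfl this, sum_const, smul_eq_mul]

/-- (V2) -/
theorem exists_diff [Finite K] {p : ℕ} (hp : p = (Nat.card K).minFac) {X S : Finset K}
    (hX : Nat.card K < p * #X) (hS : 1 ≤ #S) (hS2 : 2 * #S ≤ Nat.card K) :
    ∃ d ∈ Df X, #S ≤ 4 * p * f S d := by
  classical
  have : Fintype K := Fintype.ofFinite K
  by_contra hcon
  push Not at hcon
  have hp0 : 0 < p := hp ▸ Nat.minFac_pos _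
  have hball : ∀ k, ∀ g ∈ ball (Df X) k, 4 * p * f S g + k ≤ k * #S := by
    intro k
    induction k with
    | zero =>
      intro g hg
      rw [mem_ball_zero] at hg
      rw [hg, f_zero]
      omega
    | succ k ih =>
      intro g hg
      obtain ⟨y, hy, d, hd, rfl⟩ := mem_ball_succ.1 hg
      have h1 := ih y hy
      have h2 := hcon d hd
      have h3 := f_add S y d
      have h4 : 4 * p * f S (y + d) ≤ 4 * p * f S y + 4 * p * f S d := by
        rw [← mul_add]
        exact Nat.mul_le_mul_left _ h3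
      have h5 : (k + 1) * #S = k * #S + #S := Nat.succ_mul _ _
      omega
  have hall : ∀ g : K, 2 * f S g + 1 ≤ #S := by
    intro g
    have h1 := hball (2 * p) g (mem_ball_two hp hX g)
    have h2 : 2 * p * (2 * f S g + 1) ≤ 2 * p * #S := by
      calc 2 * p * (2 * f S g + 1) = 4 * p * f S g + 2 * p := by ring
        _ ≤ 2 * p * #S := h1
    exact Nat.le_of_mul_le_mul_left h2 (by omega)
  have h1 : ∑ g : K, (2 * f S g + 1) ≤ ∑ _g : K, #S := sum_le_sum fun g _ => hall g
  rw [sum_add_distrib, ← mul_sum, sum_f, sum_const, sum_const, card_univ, smul_eq_mul, smul_eq_mul,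
    mul_one] at h1
  rw [Nat.card_eq_fintype_card] at hS2
  obtain ⟨r, hr⟩ := Nat.exists_eq_add_of_le hS2
  have h2 : Fintype.card K - #S = #S + r := by omega
  rw [h2, hr] at h1
  nlinarith

theorem hit_insert {U : Finset K} {N : ℕ} {s x : K} (h : Hit U N s) (hx : x ∉ U) {U' : Finset K}
    (hU : insert x U ⊆ U') : Hit U' (N + 1) (s + x) := by
  obtain ⟨T, hT, hTc, hTs⟩ := h
  have hxT : x ∉ T := fun h' => hx (hT h')
  refine ⟨insert x T, (insert_subset_insert x hT).trans hU, ?_, ?_⟩
  · rw [card_insert_of_notMem hxT, hTc]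
  · rw [sum_insert hxT, hTs, add_comm]

/-- (V3) -/
theorem grow [Finite K] {p : ℕ} (hK : 2 ≤ Nat.card K) (hp : p = (Nat.card K).minFac)
    {B : Finset K} (N : ℕ) (hB : Nat.card K + p * (2 * N) < p * (#B + 2)) :
    ∃ U ⊆ B, #U = 2 * N ∧ ∃ S : Finset K, (∀ s ∈ S, Hit U N s) ∧ 1 ≤ #S ∧
      (Nat.card K < 2 * #S ∨ (4 * p + 1) ^ N ≤ (4 * p) ^ N * #S) := by
  have hp0 : 0 < p := hp ▸ Nat.minFac_pos _
  have hpK : p ≤ Nat.card K := hp ▸ Nat.minFac_le (by omega)
  induction N with
  | zero =>
    refine ⟨∅, empty_subset _, by simp, {0}, ?_, by simp, Or.inr (by simp)⟩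
    intro s hs
    rw [mem_singleton] at hs
    exact ⟨∅, empty_subset _, by simp, by simp [hs]⟩
  | succ N ih =>
    obtain ⟨U, hU, hUc, S, hS, hS1, hS2⟩ := ih (by
      have : p * (2 * (N + 1)) = p * (2 * N) + 2 * p := by ring
      omega)
    have hXc : #(B \ U) + 2 * N = #B := by
      rw [card_sdiff_of_subset hU, hUc]
      have := card_le_card hU
      omega
    have hX : Nat.card K < p * #(B \ U) := by
      have h1 : p * (#B + 2) = p * #(B \ U) + p * (2 * N) + 2 * p := by rw [← hXc]; ring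
      have h2 : p * (2 * (N + 1)) = p * (2 * N) + 2 * p := by ring
      omega
    have key : ∀ x ∈ B \ U, ∀ y ∈ B \ U, x ≠ y →
        insert y (insert x U) ⊆ B ∧ #(insert y (insert x U)) = 2 * (N + 1) := by
      intro x hx y hy hxy
      rw [mem_sdiff] at hx hy
      refine ⟨insert_subset hy.1 (insert_subset hx.1 hU), ?_⟩
      rw [card_insert_of_notMem, card_insert_of_notMem hx.2, hUc]
      · ring
      · rw [mem_insert]
        rintro (h | h)
        · exact hxy h.symm
        · exact hy.2 h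
    by_cases hbig : Nat.card K < 2 * #S
    · have h2 : 1 < #(B \ U) := by
        by_contra hcon
        have : p * #(B \ U) ≤ p * 1 := Nat.mul_le_mul_left _ (by omega)
        omega
      obtain ⟨x, hx, y, hy, hxy⟩ := one_lt_card.1 h2
      obtain ⟨k1, k2⟩ := key x hx y hy hxy
      refine ⟨_, k1, k2, S.image fun s => s + x, ?_, ?_, Or.inl ?_⟩
      · intro s hs
        obtain ⟨s', hs', rfl⟩ := mem_image.1 hs
        exact hit_insert (hS s' hs') (mem_sdiff.1 hx).2 (subset_insert _ _)
      · rw [card_image_of_injective _ (add_left_injective _)]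
        exact hS1
      · rw [card_image_of_injective _ (add_left_injective _)]
        exact hbig
    · obtain ⟨d, hd, hd2⟩ := exists_diff hp hX hS1 (by omega)
      obtain ⟨x, hx, y, hy, rfl⟩ := mem_Df.1 hd
      have hxy : x ≠ y := by
        rintro rfl
        rw [sub_self, f_zero, mul_zero] at hd2
        omega
      obtain ⟨k1, k2⟩ := key x hx y hy hxy
      have hcard : #((S.image fun s => s + x) ∪ (S.image fun s => s + y)) =
          #S + f S (y - x) := by
        have h1 : (S.image fun s => s + x) ∪ (S.image fun s => s + y) =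
            (S ∪ ((S.image fun s => s + (y - x)) \ S)).image fun s => s + x := by
          rw [union_sdiff_self_eq_union, image_union, image_image]
          congr 1
          refine image_congr fun s _ => ?_
          simp only [Function.comp]
          abel
        rw [h1, card_image_of_injective _ (add_left_injective _),
          card_union_of_disjoint disjoint_sdiff, f]
      refine ⟨_, k1, k2, (S.image fun s => s + x) ∪ (S.image fun s => s + y), ?_, ?_, Or.inr ?_⟩
      · intro s hs
        rcases mem_union.1 hs with h | h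
        · obtain ⟨s', hs', rfl⟩ := mem_image.1 h
          exact hit_insert (hS s' hs') (mem_sdiff.1 hx).2 (subset_insert _ _)
        · obtain ⟨s', hs', rfl⟩ := mem_image.1 h
          exact hit_insert (hS s' hs') (mem_sdiff.1 hy).2
            (insert_subset_insert _ (subset_insert _ _))
      · rw [hcard]
        omega
      · rw [hcard]
        have h3 : (4 * p + 1) ^ N ≤ (4 * p) ^ N * #S := hS2.resolve_left hbig
        calc (4 * p + 1) ^ (N + 1) = (4 * p + 1) ^ N * (4 * p + 1) := pow_succ _ _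
          _ ≤ (4 * p) ^ N * #S * (4 * p + 1) := Nat.mul_le_mul_right _ h3
          _ = (4 * p) ^ N * (4 * p * #S + #S) := by ring
          _ ≤ (4 * p) ^ N * (4 * p * #S + 4 * p * f S (y - x)) := by gcongr
          _ = (4 * p) ^ (N + 1) * (#S + f S (y - x)) := by ring

theorem pow_aux (a n : ℕ) : (a + n) * a ^ n ≤ a * (a + 1) ^ n := by
  induction n with
  | zero => simp
  | succ n ih =>
    calc (a + (n + 1)) * a ^ (n + 1) = (a + (n + 1)) * a * a ^ n := by ring
      _ ≤ (a + 1) * (a + n) * a ^ n := Nat.mul_le_mul_right _ (by nlinarith)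
      _ = (a + 1) * ((a + n) * a ^ n) := by ring
      _ ≤ (a + 1) * (a * (a + 1) ^ n) := Nat.mul_le_mul_left _ ih
      _ = a * (a + 1) ^ (n + 1) := by ring

theorem two_mul_pow_le (a : ℕ) (ha : 1 ≤ a) : 2 * a ^ a ≤ (a + 1) ^ a := by
  have h := pow_aux a a
  have h2 : a * (2 * a ^ a) ≤ a * (a + 1) ^ a := by
    calc a * (2 * a ^ a) = (a + a) * a ^ a := by ring
      _ ≤ a * (a + 1) ^ a := h
  exact Nat.le_of_mul_le_mul_left h2 (by omega)

theorem grow_big [Finite K] {p l : ℕ} (hK : 2 ≤ Nat.card K) (hp : p = (Nat.card K).minFac)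
    (hl : Nat.card K ≤ 2 ^ l) {B : Finset K}
    (hB : Nat.card K + p * (8 * p * l) < p * (#B + 2)) :
    ∃ U ⊆ B, #U = 8 * p * l ∧ ∃ S : Finset K, (∀ s ∈ S, Hit U (4 * p * l) s) ∧
      Nat.card K < 2 * #S := by
  have hp0 : 0 < p := hp ▸ Nat.minFac_pos _
  obtain ⟨U, hU, hUc, S, hS, hS1, hS2⟩ := grow hK hp (B := B) (4 * p * l) (by
    have : p * (2 * (4 * p * l)) = p * (8 * p * l) := by ring
    omega)
  refine ⟨U, hU, by rw [hUc]; ring, S, hS, ?_⟩
  rcases hS2 with h | h
  · exact h
  · have h1 : (2 * (4 * p) ^ (4 * p)) ^ l ≤ ((4 * p + 1) ^ (4 * p)) ^ l :=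
      Nat.pow_le_pow_left (two_mul_pow_le (4 * p) (by omega)) l
    rw [mul_pow, ← pow_mul, ← pow_mul] at h1
    have h2 : 2 ^ l * (4 * p) ^ (4 * p * l) ≤ #S * (4 * p) ^ (4 * p * l) := by
      rw [mul_comm #S]
      exact h1.trans h
    have h3 : 2 ^ l ≤ #S := Nat.le_of_mul_le_mul_right h2 (by positivity)
    omega

/-- the pigeonhole -/
theorem exists_add' [Finite K] {S T : Finset K} (hcard : Nat.card K < #S + #T) (w : K) :
    ∃ s ∈ S, ∃ t ∈ T, s + t = w := by
  by_contra hcon
  push Not at hcon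
  have h1 : Disjoint S (T.image (fun t => w - t)) := by
    rw [disjoint_left]
    intro s hs hs'
    obtain ⟨t, ht, h⟩ := mem_image.1 hs'
    refine hcon s hs t ht ?_
    rw [← h]
    abel
  have h2 : #(S ∪ T.image (fun t => w - t)) ≤ Nat.card K := by
    have : Fintype K := Fintype.ofFinite K
    rw [Nat.card_eq_fintype_card]
    exact card_le_univ _
  rw [card_union_of_disjoint h1, card_image_of_injective _ sub_right_injective] at h2
  omega

/-- Lemma V in the group itself -/
theorem full_core [Finite K] {p l d : ℕ} (hK : 2 ≤ Nat.card K) (hp : p = (Nat.card K).minFac)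
    (hl : Nat.card K ≤ 2 ^ l) {B : Finset K}
    (hB : Nat.card K + p * (16 * p * l + 1) ≤ p * #B) (hd : 8 * p * l ≤ d)
    (hd' : d + 8 * p * l ≤ #B) (y : K) : Hit B d y := by
  have hp0 : 0 < p := hp ▸ Nat.minFac_pos _
  have e1 : p * (16 * p * l + 1) = p * (8 * p * l) + p * (8 * p * l) + p := by ring
  have e2 : p * (#B + 2) = p * #B + 2 * p := by ring
  obtain ⟨U, hU, hUc, S, hS, hS2⟩ := grow_big hK hp hl (B := B) (by omega)
  have hXc : #(B \ U) + 8 * p * l = #B := by
    rw [card_sdiff_of_subset hU, hUc]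
    have := card_le_card hU
    omega
  have e3 : p * (#(B \ U) + 2) = p * #(B \ U) + 2 * p := by ring
  have e4 : p * #B = p * #(B \ U) + p * (8 * p * l) := by rw [← hXc]; ring
  obtain ⟨V, hV, hVc, T, hT, hT2⟩ := grow_big hK hp hl (B := B \ U) (by omega)
  have hUV : Disjoint U V := by
    rw [disjoint_right]
    intro x hx
    exact (mem_sdiff.1 (hV hx)).2
  have hYc : #((B \ U) \ V) + 8 * p * l = #(B \ U) := by
    rw [card_sdiff_of_subset hV, hVc]
    have := card_le_card hV
    omega
  obtain ⟨W, hW, hWc⟩ := exists_subset_card_eq (s := (B \ U) \ V) (n := d - 8 * p * l) (by omega)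
  obtain ⟨s, hs, t, ht, hst⟩ := exists_add' (S := S) (T := T) (by omega) (y - ∑ x ∈ W, x)
  obtain ⟨P, hP, hPc, hPs⟩ := hS s hs
  obtain ⟨Q, hQ, hQc, hQs⟩ := hT t ht
  have d1 : Disjoint P Q := disjoint_of_subset_left hP (disjoint_of_subset_right hQ hUV)
  have d2 : Disjoint (P ∪ Q) W := by
    rw [disjoint_right]
    intro x hx hx'
    have h1 := mem_sdiff.1 (hW hx)
    rcases mem_union.1 hx' with h | h
    · exact (mem_sdiff.1 h1.1).2 (hP h)
    · exact h1.2 (hQ h)
  refine ⟨(P ∪ Q) ∪ W, ?_, ?_, ?_⟩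
  · refine union_subset (union_subset (hP.trans hU) (hQ.trans (hV.trans sdiff_subset))) ?_
    exact hW.trans (sdiff_subset.trans sdiff_subset)
  · rw [card_union_of_disjoint d2, card_union_of_disjoint d1, hPc, hQc, hWc]
    have : 4 * p * l + 4 * p * l = 8 * p * l := by ring
    omega
  · rw [sum_union d2, sum_union d1, hPs, hQs, hst]
    abel

end V

/-- Lemma V -/
theorem full_V {G : Type*} [AddCommGroup G] [Finite G] [DecidableEq G] {H : AddSubgroup G}
    {p l η d : ℕ} (hH : 2 ≤ Nat.card H) (hp : p = (Nat.card H).minFac) (hl : Nat.card H ≤ 2 ^ l)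
    (hη : 16 * p * l + 1 ≤ η) {B : Finset G} {x₀ : G} (hB : ∀ x ∈ B, x - x₀ ∈ H)
    (hcard : Nat.card H + p * η ≤ p * #B) (hd : η ≤ d) (hd' : d + η ≤ #B) {y : G}
    (hy : y - d • x₀ ∈ H) : Hit B d y := by
  classical
  set B' : Finset H := B.attach.image fun x => (⟨x.1 - x₀, hB x.1 x.2⟩ : H) with hB'
  have hB'c : #B' = #B := by
    rw [hB', card_image_of_injective, card_attach]
    intro a b hab
    simp only [Subtype.mk.injEq] at hab
    exact Subtype.ext (sub_left_inj.1 hab)
  have e1 : p * (16 * p * l + 1) ≤ p * η := Nat.mul_le_mul_left _ hη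
  have e2 : 8 * p * l + 8 * p * l = 16 * p * l := by ring
  obtain ⟨T, hT, hTc, hTs⟩ := V.full_core (K := H) (B := B') (d := d) hH hp hl
    (by rw [hB'c]; omega) (by omega) (by rw [hB'c]; omega) ⟨y - d • x₀, hy⟩
  have hinj : Function.Injective fun u : H => (u : G) + x₀ := by
    intro a b hab
    exact Subtype.ext (add_left_injective _ hab)
  refine ⟨T.image fun u : H => (u : G) + x₀, ?_, ?_, ?_⟩
  · intro w hw
    obtain ⟨u, hu, rfl⟩ := mem_image.1 hw
    obtain ⟨x, _, rfl⟩ := mem_image.1 (hT hu)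
    simp only [sub_add_cancel]
    exact x.2
  · rw [card_image_of_injective _ hinj, hTc]
  · rw [sum_image fun a _ b _ h => hinj h, sum_add_distrib, sum_const, hTc]
    have h1 : ((∑ u ∈ T, u : H) : G) = y - d • x₀ := by rw [hTs]
    rw [AddSubgroup.val_finsetSum] at h1
    rw [h1]
    abel

end Pool.Agent.Lib.MPa7239a.X1
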