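import Pool.Agent.Lib.MP_a7239a_co.RT.CORE3
import Pool.Agent.Lib.MP_a7239a_co.X1.ALOW
import Pool.Agent.Lib.MP_a7239a_co.X1.PARTS
import Pool.Agent.Lib.MP_a7239a_co.X1.V

/-!
# The upper bound for a divisor `s` of `n` which does not divide `t` (module UPX)
-/

set_option autoImplicit false

open Finset

namespace Pool.Agent.Lib.MPa7239a.X1

open Pool.Agent.Lib.MPa7239a.GC
open Pool.Agent.Lib.MPa7239a.RK
open Pool.Agent.Lib.MPa7239a.RG (FatFull3)
open Pool.Agent.Lib.MPa7239a.RT (Far3 flex_0b3 flex_1b3')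

/-- omit `c` elements of row `0` -/
theorem hit_of_row {G : Type*} [AddCommGroup G] [DecidableEq G] {H : AddSubgroup G}
    {e q₀ : G} {A : Finset G} {z : G → ℤ} {n c o : ℕ} (hA : #A = n + c) (hnq : n • q₀ = 0)
    (hlift : ∀ x ∈ A, x - q₀ - z x • e ∈ H) (hoe : o • e ∈ H) {q : ℤ}
    (hsum : ∑ x ∈ A, z x = q * o)
    (hV : ∀ y : G, y - c • q₀ ∈ H → Hit (row A z 0) c y) : Hit A n 0 := by
  have h1 := sum_S z hlift A (Subset.refl A)
  rw [hsum, hA, add_smul, hnq, zero_add, mul_smul, natCast_zsmul] at h1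
  have h2 : ∑ x ∈ A, x - c • q₀ ∈ H := by
    have h3 := H.add_mem h1 (H.zsmul_mem hoe q)
    rwa [sub_add_cancel] at h3
  obtain ⟨D, hD, hDc, hDs⟩ := hV _ h2
  have hDA : D ⊆ A := hD.trans (filter_subset _ _)
  refine ⟨A \ D, sdiff_subset, ?_, ?_⟩
  · rw [card_sdiff_of_subset hDA, hA, hDc]
    omega
  · have h4 := sum_sdiff (f := fun x : G => x) hDA
    rw [hDs] at h4
    simpa using h4

theorem up_fat {G : Type*} [AddCommGroup G] [Finite G] [DecidableEq G] {H : AddSubgroup G}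
    {e q₀ : G} {A : Finset G} {z : G → ℤ} {m t n c s o b ρ E k p θ l : ℕ}
    (N : Num m t n s o b ρ k p)
    (h : StrR H e q₀ A z m n c s o b ρ E) (hf3 : Far3 A z b c)
    (hFF : FatFull3 H θ) (hm : 100 * s * (b + 1) * (E + θ + 10) ≤ m)
    (hl : m * s ≤ 2 ^ l) (hml : 4 * (p * s * (1 + b * (16 * p * l + 1))) < m)
    (hfb : Nat.card H + θ ≤ 2 * #(row A z b))
    (hno : ¬ Hit A n 0) : CA m s o b k c ∨ CB t s o b ρ k p c := by
  obtain ⟨r, h3, h4, h5, h6, h7⟩ := h.numbers hm
  have hb := h.hb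
  have hmc := h.mc
  have h9 : 10 * E + θ + 1000 ≤ 100 * (b + 1) * (E + θ + 10) := by nlinarith
  have hR0 := h.row_big h4 h5 h7 (i := 0) le_rfl (by omega)
  have hrow0 := card_row_le h.lift (0 : ℤ)
  have hoe := order_smul_mem h.order
  obtain ⟨s₀, s₁, s₂, e₀, e₂, e₁, P⟩ := parts h N.ks
  have hac : #(high A z b) ≤ c := by omega
  have hcast : ((c - #(high A z b) : ℕ) : ℤ) = c - #(high A z b) := by
    rw [Nat.cast_sub hac]
  by_cases hf0 : Nat.card H + θ ≤ 2 * #(row A z 0)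
  · refine Or.inl (afat N hmc P fun q hq1 hq2 => hno (hit_of_flex_mul (a := q) hoe
      (flex_0b3 h hf3 hFF hm hfb hf0 (Y := q * o) ?_ ?_)))
    · rw [e₁, ← e₂, hcast]
      linarith
    · rw [e₁, ← e₀]
      linarith
  · have hf1 : Nat.card H + θ ≤ 2 * #(row A z 1) :=
      h.fat_or hm le_rfl (by omega) (by omega) (by exact_mod_cast hb) (by omega) hf0
    rw [h.cardH] at hf0 hrow0
    rcases alow (θ := θ) N hmc P (by omega) (by omega) (fun q hq1 hq2 =>
      hno (hit_of_flex_mul (a := q) hoe (flex_1b3' h hf3 hFF hm hfb hf1 (Y := q * o) (by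
        rw [e₁, ← e₂, hcast]
        linarith) (by
        rw [e₁, ← e₀]
        linarith)))) with h10 | ⟨ha, ha', hbo, hs₀, hs₂, q, hq⟩
    · exact Or.inl h10
    right
    rw [ha, ha', hs₀, hs₂] at P
    have hp2 : 2 ≤ p := by
      rw [N.hp]
      refine (Nat.minFac_prime ?_).two_le
      have := N.s3
      have : 1 * 3 ≤ m * s := Nat.mul_le_mul N.m0 this
      omega
    have hη : 24 * (16 * p * l + 1) < m := by
      refine lt_of_le_of_lt ?_ hml
      calc 24 * (16 * p * l + 1) = 4 * (2 * 3 * (1 * (16 * p * l + 1))) := by ring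
        _ ≤ 4 * (p * s * (b * (16 * p * l + 1))) := Nat.mul_le_mul_left _
            (Nat.mul_le_mul (Nat.mul_le_mul hp2 N.s3) (Nat.mul_le_mul_right _ hb))
        _ ≤ 4 * (p * s * (1 + b * (16 * p * l + 1))) := Nat.mul_le_mul_left _
            (Nat.mul_le_mul_left _ (by omega))
    refine aextra (η := 16 * p * l + 1) N P hbo hq ?_ (by omega)
    by_contra hcon
    push Not at hcon
    have h11 : p * (m * s) = p * #(row A z 0) + p * (m * s - #(row A z 0)) := by
      rw [← mul_add]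
      congr 1
      omega
    refine hno (hit_of_row (q := q) h.card h.nq h.lift hoe (by rw [e₁, hs₀, hs₂, hq]; ring) ?_)
    intro y hy
    refine full_V (H := H) (x₀ := q₀) (η := 16 * p * l + 1) ?_ ?_ ?_ le_rfl ?_ ?_ (by omega)
      (by omega) hy
    · rw [h.cardH]
      have := N.s3
      have : 1 * 3 ≤ m * s := Nat.mul_le_mul N.m0 this
      omega
    · rw [h.cardH]
      exact N.hp
    · rw [h.cardH]
      exact hl
    · intro x hx
      rw [mem_row] at hx
      have h12 := h.lift x hx.1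
      rwa [hx.2, zero_smul, sub_zero] at h12
    · rw [h.cardH]
      have h12 : p * (m * s - #(row A z 0)) + p * #(row A z 0) = p * (m * s) := by omega
      omega

/-- MODULE UPX -/
theorem up {G : Type*} [AddCommGroup G] [Finite G] [DecidableEq G] {H : AddSubgroup G}
    {e q₀ : G} {A : Finset G} {z : G → ℤ} {m t n c s o b ρ E k p θ l : ℕ}
    (N : Num m t n s o b ρ k p)
    (h : StrR H e q₀ A z m n c s o b ρ E) (hf3 : Far3 A z b c) (hn0 : ∀ x : G, n • x = 0)
    (hFF : FatFull3 H θ) (hm : 100 * s * (b + 1) * (E + θ + 10) ≤ m)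
    (hl : m * s ≤ 2 ^ l) (hml : 4 * (p * s * (1 + b * (16 * p * l + 1))) < m)
    (hno : ¬ Hit A n 0) : CA m s o b k c ∨ CB t s o b ρ k p c := by
  have hb := h.hb
  by_cases hfb : Nat.card H + θ ≤ 2 * #(row A z b)
  · exact up_fat N h hf3 hFF hm hl hml hfb hno
  · have hf0 := h.fat_or hm (by omega) le_rfl le_rfl (by omega) (by omega) hfb
    refine up_fat N (h.rev hn0) hf3.rev hFF hm hl hml ?_ hno
    rw [row_rev, sub_self]
    exact hf0

end Pool.Agent.Lib.MPa7239a.X1
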